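import Pool.Agent.KR23.Lists

/-! The certificate for the norm of the Taylor polynomial of degree nine of `sin ∘ Q`. -/

open scoped BigOperators

namespace Pool.Agent.KR23

variable {m n : ℕ}

theorem ev_apply (U : Fin m → Fin n → ℂ) (i : Fin m) (j : Fin n) :
    ∀ l : List ℤ, ev U l i j = ev (U i j) l
  | [] => rfl
  | a :: l => by simp only [ev_cons, Pi.add_apply, Pi.mul_apply, ev_apply U i j l, Pi.intCast_apply]

theorem ev2_apply (W U : Fin m → Fin n → ℂ) (i : Fin m) (j : Fin n) :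
    ∀ l : List (List ℤ), ev2 W U l i j = ev2 (W i j) (U i j) l
  | [] => rfl
  | a :: l => by simp only [ev2_cons, Pi.add_apply, Pi.mul_apply, ev2_apply W U i j l, ev_apply]

/-- the checks on the polynomial approximations of the powers -/
structure Chk (t1 t2 s1 s : ℕ) (p1 p2 p3 p5 p7 p9 : List (List ℤ)) (e2 e3 e5 e7 e9 : ℕ) : Prop where
  n1 : l12 p1 ≤ s1
  n3 : l12 p3 ≤ s
  n5 : l12 p5 ≤ s
  n7 : l12 p7 ≤ s
  c2 : 10 ^ 12 * l12 (ladd2 (lscal2 s (lpad (lmul2 p1 p1)))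
    (lshift t1 (lscal2 (-((s1 * s1 : ℕ) : ℤ)) p2))) ≤ e2 * (s1 * s1 * s)
  c3 : 10 ^ 12 * l12 (ladd2 (lmul2 p1 p2) (lshift t2 (lscal2 (-(s1 : ℤ)) p3))) + e2 * (s1 * s) ≤
    e3 * (s1 * s)
  c5 : 10 ^ 12 * l12 (ladd2 (lmul2 p2 p3) (lshift t2 (lscal2 (-(s : ℤ)) p5))) +
    (e2 + e3) * (s * s) ≤ e5 * (s * s)
  c7 : 10 ^ 12 * l12 (ladd2 (lmul2 p2 p5) (lshift t2 (lscal2 (-(s : ℤ)) p7))) +
    (e2 + e5) * (s * s) ≤ e7 * (s * s)
  c9 : 10 ^ 12 * l12 (ladd2 (lmul2 p2 p7) (lshift t2 (lscal2 (-(s : ℤ)) p9))) +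
    (e2 + e7) * (s * s) ≤ e9 * (s * s)
  cf : 10 ^ 12 * l12 (ladd2 (lscal2 (362880 * s : ℕ) p1) (lscal2 (s1 : ℤ)
      (ladd2 (lscal2 (-60480) p3) (ladd2 (lscal2 3024 p5) (ladd2 (lscal2 (-72) p7) p9))))) +
    (60480 * e3 + 3024 * e5 + 72 * e7 + e9) * (s * s1) ≤
    (10 ^ 12 - 30000) * (362880 * s * s1)

/-- a difference of kernels given by lists -/
theorem G2.of_eval {X U W : Fin m → Fin n → ℂ} (hX : G2 X 1) (hU : G2 U 1) (hW : G2 W 1)
    (f : Fin m → Fin n → ℂ) (p : List (List ℤ)) (S : ℕ) (hS : 0 < S)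
    (hf : ∀ i j, f i j = (S : ℂ)⁻¹ * (X i j * ev2 (W i j) (U i j) p)) (E : ℝ)
    (hE : (l12 p : ℝ) ≤ E * S) : G2 f E := by
  have h1 := (hX.mul (G2.of_list2 hU hW p) zero_le_one).smul ((S : ℂ)⁻¹) (by positivity)
  have hS' : (0 : ℝ) < S := by exact_mod_cast hS
  refine (h1.mono ?_).congr ?_
  · rw [norm_inv, Complex.norm_natCast, one_mul, inv_mul_le_iff₀ hS']
    linarith
  · ext i j
    rw [hf, Pi.mul_apply, Pi.mul_apply, ev2_apply]

/-- product of approximations -/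
theorem G2.approx_mul {g g' v v' v'' : Fin m → Fin n → ℂ} {E E' δ : ℝ} (hg : G2 g 1)
    (hE : G2 (g - v) E) (hE0 : 0 ≤ E) (hE' : G2 (g' - v') E') (hv' : G2 v' 1)
    (hd : G2 (v * v' - v'') δ) : G2 (g * g' - v'') (E' + E + δ) := by
  have h := ((hg.mul hE' zero_le_one).add (hE.mul hv' hE0)).add hd
  rw [one_mul, mul_one] at h
  refine h.congr ?_
  ring

theorem cert {wo we t1 t2 : ℕ} (h1 : 2 * wo = we + 2 * t1) (h2 : we = 2 * t2)
    {rho Xi U W : Fin m → Fin n → ℂ} (hrho : G2 rho 1) (hXi : G2 Xi 1) (hU : G2 U 1) (hW : G2 W 1)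
    (hUr : ∀ i j, U i j = rho i j ^ 2) (hXW : ∀ i j, Xi i j ^ 2 * W i j = 1)
    {s1 s : ℕ} (hs1 : 0 < s1) (hs : 0 < s) {p1 p2 p3 p5 p7 p9 : List (List ℤ)}
    {e2 e3 e5 e7 e9 : ℕ} (hc : Chk t1 t2 s1 s p1 p2 p3 p5 p7 p9 e2 e3 e5 e7 e9)
    (Q : Fin m → Fin n → ℝ)
    (hQ : ∀ i j, (Q i j : ℂ) = (s1 : ℂ)⁻¹ * (rho i j * Xi i j ^ wo * ev2 (W i j) (U i j) p1)) :
    G2 (fun i j => (Q i j : ℂ)) 1 ∧
      G2 (fun i j => (sinT 5 (Q i j) : ℂ)) (1 - 3 / 10 ^ 8) := by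
  set q : Fin m → Fin n → ℂ := fun i j => (Q i j : ℂ) with hq
  have hs1' : (s1 : ℂ) ≠ 0 := by exact_mod_cast hs1.ne'
  have hs' : (s : ℂ) ≠ 0 := by exact_mod_cast hs.ne'
  have hs1r : (0 : ℝ) < s1 := by exact_mod_cast hs1
  have hsr : (0 : ℝ) < s := by exact_mod_cast hs
  have hXo : G2 (rho * Xi ^ wo) 1 := by
    have := hrho.mul (hXi.pow zero_le_one wo) zero_le_one
    simpa using this
  have hXe : G2 (Xi ^ we) 1 := by simpa using hXi.pow zero_le_one we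
  have hXoo : G2 (Xi ^ (2 * wo)) 1 := by simpa using hXi.pow zero_le_one (2 * wo)
  have hXoe : G2 (rho * Xi ^ (wo + we)) 1 := by
    have := hrho.mul (hXi.pow zero_le_one (wo + we)) zero_le_one
    simpa using this
  have hXt : ∀ (t : ℕ) i j, (Xi i j ^ (2 * t)) * W i j ^ t = 1 := fun t i j => by
    rw [pow_mul, ← mul_pow, hXW, one_pow]
  let vo : List (List ℤ) → Fin m → Fin n → ℂ := fun p i j =>
    (s : ℂ)⁻¹ * (rho i j * Xi i j ^ wo * ev2 (W i j) (U i j) p)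
  let v2 : Fin m → Fin n → ℂ := fun i j => (s : ℂ)⁻¹ * (Xi i j ^ we * ev2 (W i j) (U i j) p2)
  have hq1 : G2 q 1 := by
    refine G2.of_eval hXo hU hW q p1 s1 hs1 (fun i j => ?_) 1 ?_
    · rw [hq]; exact hQ i j
    · rw [one_mul]; exact_mod_cast hc.n1
  have hvo : ∀ p : List (List ℤ), l12 p ≤ s → G2 (vo p) 1 := fun p hp => by
    refine G2.of_eval hXo hU hW _ p s hs (fun i j => rfl) 1 ?_
    rw [one_mul]; exact_mod_cast hp
  -- the square
  have hE2 : G2 (q * q - v2) (e2 / 10 ^ 12) := by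
    refine G2.of_eval hXoo hU hW _ (ladd2 (lscal2 s (lpad (lmul2 p1 p1)))
      (lshift t1 (lscal2 (-((s1 * s1 : ℕ) : ℤ)) p2))) (s1 * s1 * s) (by positivity)
      (fun i j => ?_) _ ?_
    · simp only [Pi.sub_apply, Pi.mul_apply, hq, v2]
      rw [hQ, ev2_ladd2, ev2_lscal2, ev2_lpad, ev2_lmul2, ev2_lshift, ev2_lscal2, hUr]
      have e := hXt t1 i j
      have e2 : Xi i j ^ (2 * wo) = Xi i j ^ we * Xi i j ^ (2 * t1) := by rw [h1, pow_add]
      have e3 : (Xi i j ^ wo) ^ 2 = Xi i j ^ (2 * wo) := by rw [← pow_mul, mul_comm]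
      push_cast
      have e4 : (s1 : ℂ)⁻¹ * (s1 : ℂ) = 1 := inv_mul_cancel₀ hs1'
      have e5 : (s : ℂ)⁻¹ * (s : ℂ) = 1 := inv_mul_cancel₀ hs'
      rw [mul_inv, mul_inv, Pi.pow_apply, Pi.pow_apply]
      set P := ev2 (W i j) (rho i j ^ 2) p1
      set P2 := ev2 (W i j) (rho i j ^ 2) p2
      set a := (s1 : ℂ)⁻¹
      set b := (s : ℂ)⁻¹
      have f1 : a * a * b * (Xi i j ^ (2 * wo) * ((s : ℂ) * (rho i j ^ 2 * (P * P)) +
          W i j ^ t1 * (-((s1 : ℂ) * (s1 : ℂ)) * P2))) =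
          (b * s) * (a * a * Xi i j ^ (2 * wo) * rho i j ^ 2 * P * P) -
          (a * s1) * (a * s1) * b * (Xi i j ^ we * (Xi i j ^ (2 * t1) * W i j ^ t1) * P2) := by
        rw [e2]; ring
      rw [f1, e4, e5, e, ← e3]
      ring
    · have h := hc.c2
      have h' : (10 : ℝ) ^ 12 * (l12 (ladd2 (lscal2 s (lpad (lmul2 p1 p1)))
        (lshift t1 (lscal2 (-((s1 * s1 : ℕ) : ℤ)) p2))) : ℝ) ≤ e2 * (s1 * s1 * s) := by
        exact_mod_cast h
      push_cast at h' ⊢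
      rw [div_mul_eq_mul_div, le_div_iff₀ (by positivity)]
      linarith
  -- a product of an even and an odd kernel
  have hodd : ∀ (P P' : List (List ℤ)) (f : Fin m → Fin n → ℂ) (S : ℕ) (hS : 0 < S),
      (∀ i j, f i j = (S : ℂ)⁻¹ * (rho i j * Xi i j ^ wo * ev2 (W i j) (U i j) P)) →
      ∀ (p : List (List ℤ)), (∀ i j, ev2 (W i j) (U i j) p =
        ev2 (W i j) (U i j) P * ev2 (W i j) (U i j) p2 - W i j ^ t2 * ((S : ℂ) *
          ev2 (W i j) (U i j) P')) → ∀ E : ℝ, (l12 p : ℝ) ≤ E * (S * s) →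
      G2 (f * v2 - vo P') E := by
    intro P P' f S hS hf p hp E hE
    refine G2.of_eval hXoe hU hW _ p (S * s) (by positivity) (fun i j => ?_) _
      (by push_cast; exact hE)
    simp only [Pi.sub_apply, Pi.mul_apply, v2, vo]
    rw [hf, hp]
    have hS' : (S : ℂ) ≠ 0 := by exact_mod_cast hS.ne'
    have e := hXt t2 i j
    have e4 : (S : ℂ)⁻¹ * (S : ℂ) = 1 := inv_mul_cancel₀ hS'
    have e5 : Xi i j ^ (wo + we) = Xi i j ^ wo * Xi i j ^ we := pow_add _ _ _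
    push_cast
    rw [mul_inv, Pi.pow_apply, Pi.pow_apply, e5]
    set R1 := ev2 (W i j) (U i j) P
    set R2 := ev2 (W i j) (U i j) p2
    set R3 := ev2 (W i j) (U i j) P'
    have f1 : (S : ℂ)⁻¹ * (s : ℂ)⁻¹ * (rho i j * (Xi i j ^ wo * Xi i j ^ we) *
        (R1 * R2 - W i j ^ t2 * ((S : ℂ) * R3))) =
        (S : ℂ)⁻¹ * (s : ℂ)⁻¹ * (rho i j * (Xi i j ^ wo * Xi i j ^ we) * (R1 * R2)) -
        ((S : ℂ)⁻¹ * S) * (s : ℂ)⁻¹ * (rho i j * Xi i j ^ wo * R3) * (Xi i j ^ we * W i j ^ t2) := by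
      ring
    rw [f1, e4]
    have e6 : Xi i j ^ we * W i j ^ t2 = 1 := by rw [h2]; exact e
    rw [e6]
    ring
  have hE3 : G2 (q * (q * q) - vo p3) (e3 / 10 ^ 12) := by
    have hd : G2 (q * v2 - vo p3) (((e3 : ℝ) - e2) / 10 ^ 12) := by
      refine hodd p1 p3 q s1 hs1 (fun i j => ?_)
        (ladd2 (lmul2 p1 p2) (lshift t2 (lscal2 (-(s1 : ℤ)) p3))) (fun i j => ?_) _ ?_
      · rw [hq]; exact hQ i j
      · rw [ev2_ladd2, ev2_lmul2, ev2_lshift, ev2_lscal2]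
        push_cast
        ring
      · have h := hc.c3
        have h' : (10 : ℝ) ^ 12 * (l12 (ladd2 (lmul2 p1 p2) (lshift t2 (lscal2 (-(s1 : ℤ)) p3))) : ℝ)
            + e2 * (s1 * s) ≤ e3 * (s1 * s) := by
          exact_mod_cast h
        rw [div_mul_eq_mul_div, le_div_iff₀ (by positivity)]
        linarith
    have h := (hq1.mul hE2 zero_le_one).add hd
    rw [one_mul] at h
    refine (h.congr (by ring)).mono (le_of_eq (by ring))
  have hstep : ∀ (P P' : List (List ℤ)) (f : Fin m → Fin n → ℂ) (e e' : ℕ),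
      l12 P ≤ s → G2 (f - vo P) (e / 10 ^ 12) →
      10 ^ 12 * l12 (ladd2 (lmul2 p2 P) (lshift t2 (lscal2 (-(s : ℤ)) P'))) +
        (e2 + e) * (s * s) ≤ e' * (s * s) → G2 (q * q * f - vo P') (e' / 10 ^ 12) := by
    intro P P' f e e' hP hf hck
    have hd : G2 (vo P * v2 - vo P') (((e' : ℝ) - (e2 + e)) / 10 ^ 12) := by
      refine hodd P P' (vo P) s hs (fun i j => rfl)
        (ladd2 (lmul2 p2 P) (lshift t2 (lscal2 (-(s : ℤ)) P'))) (fun i j => ?_) _ ?_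
      · rw [ev2_ladd2, ev2_lmul2, ev2_lshift, ev2_lscal2]
        push_cast
        ring
      · have h' : (10 : ℝ) ^ 12 * (l12 (ladd2 (lmul2 p2 P) (lshift t2 (lscal2 (-(s : ℤ)) P'))) : ℝ)
            + (e2 + e) * (s * s) ≤ e' * (s * s) := by
          exact_mod_cast hck
        rw [div_mul_eq_mul_div, le_div_iff₀ (by positivity)]
        linarith
    have hqq : G2 (q * q) 1 := by simpa using hq1.mul hq1 zero_le_one
    have h := G2.approx_mul hqq hE2 (by positivity) hf (hvo P hP)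
      (hd.congr (by ring) : G2 (v2 * vo P - vo P') _)
    exact h.mono (le_of_eq (by ring))
  have hE5 := hstep p3 p5 _ e3 e5 hc.n3 hE3 hc.c5
  have hE7 := hstep p5 p7 _ e5 e7 hc.n5 hE5 hc.c7
  have hE9 := hstep p7 p9 _ e7 e9 hc.n7 hE7 hc.c9
  refine ⟨hq1, ?_⟩
  set pf := ladd2 (lscal2 (362880 * s : ℕ) p1) (lscal2 (s1 : ℤ)
      (ladd2 (lscal2 (-60480) p3) (ladd2 (lscal2 3024 p5) (ladd2 (lscal2 (-72) p7) p9)))) with hpf
  have hF : G2 (fun i j => q i j - 1 / 6 * vo p3 i j + 1 / 120 * vo p5 i j - 1 / 5040 * vo p7 i j +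
      1 / 362880 * vo p9 i j) ((l12 pf : ℝ) / (362880 * s * s1)) := by
    refine G2.of_eval hXo hU hW _ pf (362880 * s * s1) (by positivity) (fun i j => ?_) _ ?_
    · simp only [vo, hq]
      rw [hQ, hpf, ev2_ladd2, ev2_lscal2, ev2_lscal2, ev2_ladd2, ev2_ladd2, ev2_ladd2, ev2_lscal2,
        ev2_lscal2, ev2_lscal2, Pi.mul_apply, Pi.mul_apply, Pi.pow_apply, Pi.pow_apply]
      push_cast
      field_simp
      ring
    · push_cast
      rw [div_mul_cancel₀ _ (by positivity)]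
  have hsm : ∀ (c : ℝ) (f : Fin m → Fin n → ℂ) (e : ℝ), 0 ≤ e → G2 f e → 0 ≤ c →
      G2 (fun i j => (c : ℂ) * f i j) (c * e) := by
    intro c f e he hf hc
    have := hf.smul (c : ℂ) he
    rwa [Complex.norm_real, Real.norm_eq_abs, abs_of_nonneg hc] at this
  have hsn : ∀ (c : ℝ) (f : Fin m → Fin n → ℂ) (e : ℝ), 0 ≤ e → G2 f e → 0 ≤ c →
      G2 (fun i j => -(c : ℂ) * f i j) (c * e) := by
    intro c f e he hf hc
    have := hf.smul (-(c : ℂ)) he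
    rwa [norm_neg, Complex.norm_real, Real.norm_eq_abs, abs_of_nonneg hc] at this
  have hA := (((hF.add (hsn (1 / 6) _ _ (by positivity) hE3 (by norm_num))).add
    (hsm (1 / 120) _ _ (by positivity) hE5 (by norm_num))).add
    (hsn (1 / 5040) _ _ (by positivity) hE7 (by norm_num))).add
    (hsm (1 / 362880) _ _ (by positivity) hE9 (by norm_num))
  refine (hA.congr ?_).mono ?_
  · ext i j
    simp only [Pi.add_apply, Pi.sub_apply, Pi.mul_apply, sinT, Finset.sum_range_succ,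
      Finset.sum_range_zero, Nat.factorial, hq]
    push_cast
    ring
  · have h := hc.cf
    have h' : (10 : ℝ) ^ 12 * (l12 pf : ℝ) + (60480 * e3 + 3024 * e5 + 72 * e7 + e9) * (s * s1) ≤
        (10 ^ 12 - 30000) * (362880 * s * s1) := by
      have : ((10 ^ 12 - 30000 : ℕ) : ℝ) = 10 ^ 12 - 30000 := by norm_num
      rw [← this]
      exact_mod_cast h
    rw [← sub_nonneg] at h' ⊢
    have e : (1 - 3 / 10 ^ 8 : ℝ) - ((l12 pf : ℝ) / (362880 * s * s1) + 1 / 6 * (e3 / 10 ^ 12) +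
        1 / 120 * (e5 / 10 ^ 12) + 1 / 5040 * (e7 / 10 ^ 12) + 1 / 362880 * (e9 / 10 ^ 12)) =
        ((10 ^ 12 - 30000) * (362880 * s * s1) - (10 ^ 12 * (l12 pf : ℝ) +
        (60480 * e3 + 3024 * e5 + 72 * e7 + e9) * (s * s1))) / (10 ^ 12 * (362880 * s * s1)) := by
      field_simp
      ring
    rw [e]
    positivity

end Pool.Agent.KR23
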