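import Mathlib
import Pool.Agent.KG.Identity

/-! The law of the twist: the characteristic function of the sum of the squares of four Gaussian
variables `⟪u, g⟫, ⟪v, g⟫, ⟪u, g'⟫, ⟪v, g'⟫`, where `g, g'` are independent standard Gaussian
vectors and `u, v` are unit vectors. -/

open scoped BigOperators
open MeasureTheory ProbabilityTheory

namespace Pool.Agent.KR23

/-- the characteristic function of the square of a standard Gaussian variable -/
noncomputable def chi (s : ℝ) : ℂ :=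
  ∫ x : ℝ, Complex.exp (((s * x ^ 2 : ℝ) : ℂ) * Complex.I) ∂(gaussianReal 0 1)

theorem chi_sq (s : ℝ) : chi s ^ 2 * (1 - 2 * (s : ℂ) * Complex.I) = 1 := by
  have hpi : (0 : ℝ) < 2 * Real.pi := by positivity
  obtain ⟨b, hb⟩ : ∃ b : ℂ, b = 1 / 2 - (s : ℂ) * Complex.I := ⟨_, rfl⟩
  have hre : 0 < b.re := by
    rw [hb]
    simp
  have hb0 : b ≠ 0 := by
    intro h
    rw [h] at hre
    simp at hre
  have h1 : chi s = ((Real.sqrt (2 * Real.pi))⁻¹ : ℝ) * (Real.pi / b) ^ (1 / 2 : ℂ) := by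
    rw [← integral_gaussian_complex hre, chi, integral_gaussianReal_eq_integral_smul one_ne_zero,
      ← integral_const_mul]
    refine integral_congr_ae (Filter.Eventually.of_forall fun x => ?_)
    simp only [gaussianPDFReal, NNReal.coe_one, mul_one, sub_zero]
    rw [Complex.real_smul]
    push_cast
    rw [mul_assoc, ← Complex.exp_add]
    congr 2
    rw [hb]
    ring
  have h2 : ((Real.pi / b : ℂ) ^ (1 / 2 : ℂ)) ^ 2 = Real.pi / b := by
    have := Complex.cpow_nat_inv_pow (Real.pi / b : ℂ) (n := 2) two_ne_zero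
    rw [one_div]
    exact_mod_cast this
  have h3 : (((Real.sqrt (2 * Real.pi))⁻¹ : ℝ) : ℂ) ^ 2 = 1 / (2 * Real.pi) := by
    have h4 : ((Real.sqrt (2 * Real.pi))⁻¹) ^ 2 = 1 / (2 * Real.pi) := by
      rw [inv_pow, Real.sq_sqrt hpi.le, one_div]
    rw [← Complex.ofReal_pow, h4]
    push_cast
    rfl
  have h5 : (1 - 2 * (s : ℂ) * Complex.I) = 2 * b := by rw [hb]; ring
  rw [h1, mul_pow, h2, h3, h5]
  have h6 : (Real.pi : ℂ) ≠ 0 := by exact_mod_cast Real.pi_ne_zero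
  field_simp

private theorem helper23_tw_chi_zero : chi 0 = 1 := by
  unfold chi
  simp

/-- scaling -/
private theorem helper23_tw_scale {N : ℕ} (p : EuclideanSpace ℝ (Fin N)) (t : ℝ) :
    ∫ g, Complex.exp (((t * (inner ℝ p g : ℝ) ^ 2 : ℝ) : ℂ) * Complex.I)
      ∂(stdGaussian (EuclideanSpace ℝ (Fin N))) = chi (t * ‖p‖ ^ 2) := by
  by_cases hp : p = 0
  · subst hp
    simp [helper23_tw_chi_zero]
  · have hp' : ‖p‖ ≠ 0 := norm_ne_zero_iff.mpr hp
    obtain ⟨x, hx⟩ : ∃ x, x = ‖p‖⁻¹ • p := ⟨_, rfl⟩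
    have hx1 : ‖x‖ = 1 := by
      rw [hx, norm_smul, norm_inv, norm_norm, inv_mul_cancel₀ hp']
    have hpx : ∀ g, (inner ℝ p g : ℝ) = ‖p‖ * inner ℝ x g := by
      intro g
      rw [hx, real_inner_smul_left, ← mul_assoc, mul_inv_cancel₀ hp', one_mul]
    rw [chi, ← Pool.Agent.KG.Kriv.map_inner_stdGaussian x hx1, integral_map]
    · refine integral_congr_ae (Filter.Eventually.of_forall fun g => ?_)
      simp only
      rw [hpx, mul_pow, ← mul_assoc]
    · exact (by fun_prop : Measurable fun g : EuclideanSpace ℝ (Fin N) => (inner ℝ x g : ℝ)).aemeasurable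
    · exact (by fun_prop : Continuous fun y : ℝ =>
        Complex.exp (((t * ‖p‖ ^ 2 * y ^ 2 : ℝ) : ℂ) * Complex.I)).aestronglyMeasurable

/-- one copy: the exponents split over the orthogonal directions `u + v` and `u - v` -/
theorem integral_one {N : ℕ} (u v : EuclideanSpace ℝ (Fin N)) (hu : ‖u‖ = 1) (hv : ‖v‖ = 1)
    (s : ℝ) :
    ∫ g, Complex.exp (((s * ((inner ℝ u g : ℝ) ^ 2 + (inner ℝ v g : ℝ) ^ 2) : ℝ) : ℂ) * Complex.I)
      ∂(stdGaussian (EuclideanSpace ℝ (Fin N))) =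
      chi (s * (1 + inner ℝ u v)) * chi (s * (1 - inner ℝ u v)) := by
  obtain ⟨p, hp⟩ : ∃ p, p = u + v := ⟨_, rfl⟩
  obtain ⟨q, hq⟩ : ∃ q, q = u - v := ⟨_, rfl⟩
  have hpq : inner ℝ p q = 0 := by
    rw [hp, hq, inner_add_left, inner_sub_right, inner_sub_right, real_inner_self_eq_norm_sq,
      real_inner_self_eq_norm_sq, hu, hv, real_inner_comm v u]
    ring
  have hpn : ‖p‖ ^ 2 = 2 * (1 + inner ℝ u v) := by
    rw [hp, norm_add_sq_real, hu, hv]
    ring
  have hqn : ‖q‖ ^ 2 = 2 * (1 - inner ℝ u v) := by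
    rw [hq, norm_sub_sq_real, hu, hv]
    ring
  have hG : HasGaussianLaw (fun g => ((inner ℝ p g : ℝ), (inner ℝ q g : ℝ)))
      (stdGaussian (EuclideanSpace ℝ (Fin N))) :=
    IsGaussian.hasGaussianLaw_id.map ((innerSL ℝ p).prod (innerSL ℝ q))
  have hcov : cov[fun g => (inner ℝ p g : ℝ), fun g => (inner ℝ q g : ℝ);
      stdGaussian (EuclideanSpace ℝ (Fin N))] = 0 := by
    rw [← covarianceBilin_apply_eq_cov, covarianceBilin_stdGaussian]
    · exact hpq
    · exact IsGaussian.memLp_two_id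
  have hind := hG.indepFun_of_covariance_eq_zero hcov
  have hm1 : Measurable (fun g : EuclideanSpace ℝ (Fin N) => (inner ℝ p g : ℝ)) := by fun_prop
  have hm2 : Measurable (fun g : EuclideanSpace ℝ (Fin N) => (inner ℝ q g : ℝ)) := by fun_prop
  have hcont : Continuous fun y : ℝ => Complex.exp (((s / 2 * y ^ 2 : ℝ) : ℂ) * Complex.I) := by
    fun_prop
  have h1 := hind.integral_fun_comp_mul_comp (𝕜 := ℂ)
    (f := fun y : ℝ => Complex.exp (((s / 2 * y ^ 2 : ℝ) : ℂ) * Complex.I))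
    (g := fun y : ℝ => Complex.exp (((s / 2 * y ^ 2 : ℝ) : ℂ) * Complex.I))
    hm1.aemeasurable hm2.aemeasurable hcont.aestronglyMeasurable hcont.aestronglyMeasurable
  rw [helper23_tw_scale, helper23_tw_scale, hpn, hqn] at h1
  have e1 : s / 2 * (2 * (1 + inner ℝ u v)) = s * (1 + inner ℝ u v) := by ring
  have e2 : s / 2 * (2 * (1 - inner ℝ u v)) = s * (1 - inner ℝ u v) := by ring
  rw [e1, e2] at h1
  rw [← h1]
  refine integral_congr_ae (Filter.Eventually.of_forall fun g => ?_)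
  simp only
  rw [← Complex.exp_add]
  congr 1
  rw [hp, hq, inner_add_left, inner_sub_left]
  push_cast
  ring

/-- the expectation of the twist -/
theorem integral_twist {N : ℕ} (u v : EuclideanSpace ℝ (Fin N)) (hu : ‖u‖ = 1) (hv : ‖v‖ = 1)
    (s : ℝ) :
    (∫ p, Complex.exp (((s * ((inner ℝ u p.1 : ℝ) ^ 2 + (inner ℝ u p.2 : ℝ) ^ 2 +
        (inner ℝ v p.1 : ℝ) ^ 2 + (inner ℝ v p.2 : ℝ) ^ 2) : ℝ) : ℂ) * Complex.I)
      ∂((stdGaussian (EuclideanSpace ℝ (Fin N))).prod (stdGaussian (EuclideanSpace ℝ (Fin N))))) *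
      ((1 - 2 * (s : ℂ) * Complex.I) ^ 2 + 4 * (s : ℂ) ^ 2 * ((inner ℝ u v : ℝ) : ℂ) ^ 2) = 1 := by
  have h1 : (∫ p, Complex.exp (((s * ((inner ℝ u p.1 : ℝ) ^ 2 + (inner ℝ u p.2 : ℝ) ^ 2 +
        (inner ℝ v p.1 : ℝ) ^ 2 + (inner ℝ v p.2 : ℝ) ^ 2) : ℝ) : ℂ) * Complex.I)
      ∂((stdGaussian (EuclideanSpace ℝ (Fin N))).prod (stdGaussian (EuclideanSpace ℝ (Fin N))))) =
      (chi (s * (1 + inner ℝ u v)) * chi (s * (1 - inner ℝ u v))) *
      (chi (s * (1 + inner ℝ u v)) * chi (s * (1 - inner ℝ u v))) := by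
    rw [← integral_one u v hu hv s, ← integral_prod_mul]
    refine integral_congr_ae (Filter.Eventually.of_forall fun p => ?_)
    simp only
    rw [← Complex.exp_add]
    congr 1
    push_cast
    ring
  have h2 := chi_sq (s * (1 + inner ℝ u v))
  have h3 := chi_sq (s * (1 - inner ℝ u v))
  rw [h1]
  have h4 : (1 - 2 * (s : ℂ) * Complex.I) ^ 2 + 4 * (s : ℂ) ^ 2 * ((inner ℝ u v : ℝ) : ℂ) ^ 2 =
      (1 - 2 * ((s * (1 + inner ℝ u v) : ℝ) : ℂ) * Complex.I) *
      (1 - 2 * ((s * (1 - inner ℝ u v) : ℝ) : ℂ) * Complex.I) := by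
    have hI : Complex.I ^ 2 = -1 := Complex.I_sq
    push_cast
    linear_combination (4 * (s : ℂ) ^ 2 * ((inner ℝ u v : ℝ) : ℂ) ^ 2) * hI
  rw [h4]
  calc _ = (chi (s * (1 + inner ℝ u v)) ^ 2 * (1 - 2 * ((s * (1 + inner ℝ u v) : ℝ) : ℂ) * Complex.I)) *
      (chi (s * (1 - inner ℝ u v)) ^ 2 * (1 - 2 * ((s * (1 - inner ℝ u v) : ℝ) : ℂ) * Complex.I)) := by ring
    _ = 1 := by rw [h2, h3, one_mul]

end Pool.Agent.KR23
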