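import Pool.Agent.KR23.Data
import Pool.Agent.KR23.Twist

/-! Assembly of the explicit upper bound for the real Grothendieck constant. -/

open scoped BigOperators
open MeasureTheory ProbabilityTheory Complex

namespace Pool.Agent.KR23

open Pool.Agent.KG

variable {m n : ℕ}

/-- averaging a bounded family of kernels -/
theorem average {Ω : Type*} [MeasurableSpace Ω] (μ : Measure Ω) [IsProbabilityMeasure μ]
    (A : Matrix (Fin m) (Fin n) ℝ) (f : Fin m → Fin n → Ω → ℝ) (hf : ∀ i j, Integrable (f i j) μ)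
    (C : ℝ) (h : ∀ p, |∑ i, ∑ j, A i j * f i j p| ≤ C) :
    |∑ i, ∑ j, A i j * ∫ p, f i j p ∂μ| ≤ C := by
  have h1 : ∑ i, ∑ j, A i j * ∫ p, f i j p ∂μ = ∫ p, ∑ i, ∑ j, A i j * f i j p ∂μ := by
    rw [integral_finsetSum _ fun i _ => integrable_finsetSum _ fun j _ => (hf i j).const_mul _]
    refine Finset.sum_congr rfl fun i _ => ?_
    rw [integral_finsetSum _ fun j _ => (hf i j).const_mul _]
    refine Finset.sum_congr rfl fun j _ => ?_
    rw [integral_const_mul]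
  rw [h1, ← Real.norm_eq_abs]
  refine (norm_integral_le_integral_norm _).trans ?_
  calc ∫ p, ‖∑ i, ∑ j, A i j * f i j p‖ ∂μ ≤ ∫ _p, C ∂μ := by
        refine integral_mono_of_nonneg (Filter.Eventually.of_forall fun _ => norm_nonneg _)
          (integrable_const _) (Filter.Eventually.of_forall fun p => ?_)
        exact h p
    _ = C := by simp

theorem ofReal_ev (x : ℝ) : ∀ l : List ℤ, ((ev x l : ℝ) : ℂ) = ev (x : ℂ) l
  | [] => by simp
  | a :: l => by
      simp only [ev_cons]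
      push_cast
      rw [ofReal_ev x l]

/-- the kernel `Q` -/
noncomputable def kerQ (ρ θ : ℝ) : ℝ :=
  2 / 10 ^ 8 * (ρ * (ev (ρ ^ 2) h1 * Real.cos θ + ev (ρ ^ 2) h3 * Real.cos (3 * θ) +
    ev (ρ ^ 2) h5 * Real.cos (5 * θ) + ev (ρ ^ 2) h7 * Real.cos (7 * θ) +
    ev (ρ ^ 2) h9 * Real.cos (9 * θ)))

theorem kerQ_eval (ρ θ : ℝ) : ((kerQ ρ θ : ℝ) : ℂ) =
    (((10 ^ 8 : ℕ) : ℕ) : ℂ)⁻¹ * ((ρ : ℂ) * cexp (((-θ : ℝ) : ℂ) * I) ^ 15 *
      ev2 (cexp (((2 * θ : ℝ) : ℂ) * I)) ((ρ : ℂ) ^ 2) qP1) := by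
  set x := cexp ((θ : ℂ) * I) with hx
  have hx0 : x ≠ 0 := Complex.exp_ne_zero _
  have e1 : cexp (((-θ : ℝ) : ℂ) * I) = x⁻¹ := by
    rw [hx, ← Complex.exp_neg]
    congr 1
    push_cast
    ring
  have e2 : cexp (((2 * θ : ℝ) : ℂ) * I) = x ^ 2 := by
    rw [hx, ← Complex.exp_nat_mul]
    congr 1
    push_cast
    ring
  have ec : ∀ k : ℕ, Complex.cos ((k : ℂ) * (θ : ℂ)) = (x ^ k + (x⁻¹) ^ k) / 2 := by
    intro k
    rw [Complex.cos, hx, ← Complex.exp_neg, ← Complex.exp_nat_mul, ← Complex.exp_nat_mul]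
    congr 2
    · congr 1; ring
    · congr 1; ring
  have c1 : Complex.cos (θ : ℂ) = (x + x⁻¹) / 2 := by
    have := ec 1
    simpa using this
  have c3 : Complex.cos (3 * (θ : ℂ)) = (x ^ 3 + (x⁻¹) ^ 3) / 2 := by
    have := ec 3
    push_cast at this
    exact this
  have c5 : Complex.cos (5 * (θ : ℂ)) = (x ^ 5 + (x⁻¹) ^ 5) / 2 := by
    have := ec 5
    push_cast at this
    exact this
  have c7 : Complex.cos (7 * (θ : ℂ)) = (x ^ 7 + (x⁻¹) ^ 7) / 2 := by
    have := ec 7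
    push_cast at this
    exact this
  have c9 : Complex.cos (9 * (θ : ℂ)) = (x ^ 9 + (x⁻¹) ^ 9) / 2 := by
    have := ec 9
    push_cast at this
    exact this
  rw [e1, e2, kerQ]
  push_cast
  rw [c1, c3, c5, c7, c9]
  simp only [ofReal_ev, ofReal_pow, qP1, ev2_cons, ev2_nil, ev_nil]
  generalize ev ((ρ : ℂ) ^ 2) h1 = H1
  generalize ev ((ρ : ℂ) ^ 2) h3 = H3
  generalize ev ((ρ : ℂ) ^ 2) h5 = H5
  generalize ev ((ρ : ℂ) ^ 2) h7 = H7
  generalize ev ((ρ : ℂ) ^ 2) h9 = H9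
  field_simp
  ring

/-- the phase -/
noncomputable def zc : ℂ := (975664 - 312000 * I) / 1024336

theorem norm_zc : ‖zc‖ = 1 := by
  have h : ‖zc‖ ^ 2 = 1 := by
    rw [Complex.sq_norm, Complex.normSq_apply, zc]
    have e1 : ((975664 - 312000 * I) / 1024336 : ℂ) = ((975664 / 1024336 : ℝ) : ℂ) +
        ((-312000 / 1024336 : ℝ) : ℂ) * I := by
      push_cast
      ring
    rw [e1]
    simp only [add_re, ofReal_re, mul_re, I_re, mul_zero, ofReal_im, I_im, mul_one, sub_self,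
      add_zero, add_im, mul_im, zero_add]
    norm_num
  nlinarith [norm_nonneg zc]

theorem zc_ne : zc ≠ 0 := by
  intro h
  have := norm_zc
  rw [h, norm_zero] at this
  norm_num at this

/-- the shift of the angles -/
noncomputable def kap : ℝ := -Complex.arg zc

theorem exp_kap : cexp (((-kap : ℝ) : ℂ) * I) = zc := by
  have h := Complex.norm_mul_exp_arg_mul_I zc
  rw [norm_zc, ofReal_one, one_mul] at h
  rw [kap, neg_neg]
  exact h

/-- the angle -/
noncomputable def th {N : ℕ} (u v : EuclideanSpace ℝ (Fin N))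
    (p : EuclideanSpace ℝ (Fin N) × EuclideanSpace ℝ (Fin N)) : ℝ :=
  78 / 1000 * ((inner ℝ u p.1 : ℝ) ^ 2 + (inner ℝ u p.2 : ℝ) ^ 2 + (inner ℝ v p.1 : ℝ) ^ 2 +
    (inner ℝ v p.2 : ℝ) ^ 2) - kap

theorem continuous_th {N : ℕ} (u v : EuclideanSpace ℝ (Fin N)) : Continuous (th u v) := by
  unfold th
  fun_prop

/-- the product Gaussian measure -/
noncomputable abbrev gam2 (N : ℕ) :
    Measure (EuclideanSpace ℝ (Fin N) × EuclideanSpace ℝ (Fin N)) :=
  (stdGaussian (EuclideanSpace ℝ (Fin N))).prod (stdGaussian (EuclideanSpace ℝ (Fin N)))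

theorem integrable_phase {N : ℕ} (u v : EuclideanSpace ℝ (Fin N)) (k : ℝ) :
    Integrable (fun p => cexp (((k * th u v p : ℝ) : ℂ) * I)) (gam2 N) := by
  refine Integrable.of_bound (C := 1) ?_ (Filter.Eventually.of_forall fun p => ?_)
  · have := continuous_th u v
    exact (by fun_prop : Continuous fun p => cexp (((k * th u v p : ℝ) : ℂ) * I)).aestronglyMeasurable
  · rw [Complex.norm_exp_ofReal_mul_I]

/-- the expectation of the modes -/
noncomputable def TT {N : ℕ} (u v : EuclideanSpace ℝ (Fin N)) (k : ℕ) : ℂ :=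
  ∫ p, cexp ((((k : ℝ) * th u v p : ℝ) : ℂ) * I) ∂(gam2 N)

theorem TT_mul {N : ℕ} (u v : EuclideanSpace ℝ (Fin N)) (hu : ‖u‖ = 1) (hv : ‖v‖ = 1) (k : ℕ) :
    TT u v k * ((1 - 156 / 1000 * (k : ℂ) * I) ^ 2 +
      (156 / 1000 * (k : ℂ)) ^ 2 * ((inner ℝ u v : ℝ) : ℂ) ^ 2) = zc ^ k := by
  have h := integral_twist u v hu hv (78 / 1000 * k)
  have e : TT u v k = zc ^ k * ∫ p, cexp ((((78 / 1000 * (k : ℝ)) * ((inner ℝ u p.1 : ℝ) ^ 2 +
      (inner ℝ u p.2 : ℝ) ^ 2 + (inner ℝ v p.1 : ℝ) ^ 2 + (inner ℝ v p.2 : ℝ) ^ 2) : ℝ) : ℂ) * I)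
      ∂(gam2 N) := by
    rw [TT, ← integral_const_mul]
    refine integral_congr_ae (Filter.Eventually.of_forall fun p => ?_)
    simp only
    rw [← exp_kap, ← Complex.exp_nat_mul, ← Complex.exp_add]
    congr 1
    simp only [th]
    push_cast
    ring
  rw [e]
  have e2 : (1 - 2 * ((78 / 1000 * (k : ℝ) : ℝ) : ℂ) * I) ^ 2 +
      4 * ((78 / 1000 * (k : ℝ) : ℝ) : ℂ) ^ 2 * ((inner ℝ u v : ℝ) : ℂ) ^ 2 =
      (1 - 156 / 1000 * (k : ℂ) * I) ^ 2 +
      (156 / 1000 * (k : ℂ)) ^ 2 * ((inner ℝ u v : ℝ) : ℂ) ^ 2 := by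
    push_cast
    ring
  rw [e2] at h
  rw [mul_assoc, h, mul_one]

theorem integral_cos {N : ℕ} (u v : EuclideanSpace ℝ (Fin N)) (k : ℕ) :
    ∫ p, Real.cos ((k : ℝ) * th u v p) ∂(gam2 N) = (TT u v k).re := by
  have h := integral_re (integrable_phase u v k)
  rw [TT]
  have e : ∀ p, RCLike.re (cexp ((((k : ℝ) * th u v p : ℝ) : ℂ) * I)) =
      Real.cos ((k : ℝ) * th u v p) := fun p => by
    have := Complex.exp_ofReal_mul_I_re ((k : ℝ) * th u v p)
    exact this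
  simp only [e] at h
  exact h

theorem integrable_cos {N : ℕ} (u v : EuclideanSpace ℝ (Fin N)) (k : ℝ) :
    Integrable (fun p => Real.cos (k * th u v p)) (gam2 N) := by
  refine Integrable.of_bound (C := 1) ?_ (Filter.Eventually.of_forall fun p => ?_)
  · have := continuous_th u v
    exact (by fun_prop : Continuous fun p => Real.cos (k * th u v p)).aestronglyMeasurable
  · rw [Real.norm_eq_abs]; exact Real.abs_cos_le_one _

/-- the remainder of a mode -/
noncomputable def RR (k : ℕ) (pr pi : List ℤ) (U : ℂ) : ℂ :=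
  1 - (zc ^ k)⁻¹ * (((1 - 156 / 1000 * (k : ℂ) * I) ^ 2 + (156 / 1000 * (k : ℂ)) ^ 2 * U) *
    ((ev U pr + I * ev U pi) / 10 ^ 10))

theorem resid {U : Fin m → Fin n → ℂ} (hU : G2 U 1) (k : ℕ) (zr zi : ℤ)
    (hz : (975664 - 312000 * I) ^ k = (zr : ℂ) + (zi : ℂ) * I) (pr pi : List ℤ) (e : ℕ)
    (he : 10 ^ 12 * (l1 (resR k zr zi pr pi) + l1 (resI k zr zi pr pi)) ≤
      e * (10 ^ 16 * 1024336 ^ k)) :
    G2 (fun i j => RR k pr pi (U i j)) (e / 10 ^ 12) := by
  have hr := G2.of_list hU (resR k zr zi pr pi)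
  have hi := (G2.of_list hU (resI k zr zi pr pi)).smul I (by positivity)
  rw [Complex.norm_I, one_mul] at hi
  have h := (hr.add hi).smul ((zc ^ k)⁻¹ * ((10 ^ 16 * 1024336 ^ k : ℂ))⁻¹) (by positivity)
  refine (h.congr ?_).mono ?_
  · ext i j
    simp only [Pi.add_apply]
    rw [ev_apply, ev_apply, RR]
    generalize U i j = W
    have hzk : zc ^ k = ((zr : ℂ) + (zi : ℂ) * I) / 1024336 ^ k := by
      rw [zc, div_pow, hz]
    have hne : zc ^ k ≠ 0 := pow_ne_zero _ zc_ne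
    have e1 : (1 : ℂ) = (zc ^ k)⁻¹ * (((zr : ℂ) + (zi : ℂ) * I) / 1024336 ^ k) := by
      rw [← hzk, inv_mul_cancel₀ hne]
    rw [resR, resI]
    simp only [ev_ladd, ev_lscal, ev_lmul, ev_cons, ev_nil]
    push_cast
    rw [mul_assoc, show (1 : ℂ) - (zc ^ k)⁻¹ * (((1 - 156 / 1000 * (k : ℂ) * I) ^ 2 +
      (156 / 1000 * (k : ℂ)) ^ 2 * W) * ((ev W pr + I * ev W pi) / 10 ^ 10)) =
      (zc ^ k)⁻¹ * ((((zr : ℂ) + (zi : ℂ) * I) / 1024336 ^ k) -
      (((1 - 156 / 1000 * (k : ℂ) * I) ^ 2 +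
      (156 / 1000 * (k : ℂ)) ^ 2 * W) * ((ev W pr + I * ev W pi) / 10 ^ 10))) by
        rw [mul_sub, ← e1]]
    congr 1
    have hM : (1024336 ^ k : ℂ) ≠ 0 := pow_ne_zero _ (by norm_num)
    field_simp
    have hI : I ^ 2 = -1 := Complex.I_sq
    have hI3 : I ^ 3 = -I := by rw [pow_succ, hI]; ring
    ring_nf
    simp only [hI, hI3]
    ring
  · rw [norm_mul, norm_inv, norm_pow, norm_zc, one_pow, inv_one, one_mul, norm_inv]
    have e1 : ‖(10 ^ 16 * 1024336 ^ k : ℂ)‖ = 10 ^ 16 * 1024336 ^ k := by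
      rw [norm_mul, norm_pow, norm_pow]
      norm_num
    rw [e1, inv_mul_le_iff₀ (by positivity)]
    have h' : (10 : ℝ) ^ 12 * (l1 (resR k zr zi pr pi) + l1 (resI k zr zi pr pi)) ≤
        e * (10 ^ 16 * 1024336 ^ k) := by exact_mod_cast he
    rw [mul_div_assoc', le_div_iff₀ (by positivity)]
    linarith

theorem zpow1 : (975664 - 312000 * I : ℂ) ^ 1 = ((975664 : ℤ) : ℂ) + ((-312000 : ℤ) : ℂ) * I := by
  push_cast
  ring

theorem zpow2 : (975664 - 312000 * I : ℂ) ^ 2 = ((854576240896 : ℤ) : ℂ) +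
    ((-608814336000 : ℤ) : ℂ) * I := by
  rw [pow_succ, zpow1]
  push_cast
  linear_combination (97344000000 : ℂ) * Complex.I_sq

theorem zpow3 : (975664 - 312000 * I : ℂ) ^ 3 = ((643829200665554944 : ℤ) : ℂ) +
    ((-860626017478656000 : ℤ) : ℂ) * I := by
  rw [pow_succ, zpow2]
  push_cast
  linear_combination (189950072832000000 : ℂ) * Complex.I_sq

theorem zpow4 : (975664 - 312000 * I : ℂ) ^ 4 = ((359645655784817326882816 : ℤ) : ℂ) +
    ((-1040556533324948570112000 : ℤ) : ℂ) * I := by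
  rw [pow_succ, zpow3]
  push_cast
  linear_combination (268515317453340672000000 : ℂ) * Complex.I_sq

theorem zpow5 : (975664 - 312000 * I : ℂ) ^ 5 = ((26239680708254058540851789824 : ℤ) : ℂ) +
    ((-1127442994134815627697192960000 : ℤ) : ℂ) * I := by
  rw [pow_succ, zpow4]
  push_cast
  linear_combination (324653638397383953874944000000 : ℂ) * Complex.I_sq

theorem zpow6 : (975664 - 312000 * I : ℂ) ^ 6 = ((-326161102331524488069322582853156864 : ℤ) : ℂ) +
    ((-1108192321810526020846299830550528000 : ℤ) : ℂ) * I := by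
  rw [pow_succ, zpow5]
  push_cast
  linear_combination (351762214170062475841524203520000000 : ℂ) * Complex.I_sq

theorem zpow7 : (975664 - 312000 * I : ℂ) ^ 7 = ((-663979650150068626631713095608607174557696 : ℤ) : ℂ) +
    ((-979461089539509419325355632024065409024000 : ℤ) : ℂ) * I := by
  rw [pow_succ, zpow6]
  push_cast
  linear_combination (345756004404884118504045547131764736000000 : ℂ) * Complex.I_sq

theorem zpow8 : (975664 - 312000 * I : ℂ) ^ 8 = ((-953412901320343495363514682905384517973147910144 : ℤ) : ℂ) +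
    ((-748463273617654506587559291533242314767990784000 : ℤ) : ℂ) * I := by
  rw [pow_succ, zpow7]
  push_cast
  linear_combination (305591859936326938829510957191508407615488000000 : ℂ) * Complex.I_sq

theorem zpow9 : (975664 - 312000 * I : ℂ) ^ 9 = ((-1163731186322519822115666688540570682551366507210735616 : ℤ) : ℂ) +
    ((-432783846178948095961827867548009360188174812315648000 : ℤ) : ℂ) * I := by
  rw [pow_succ, zpow8]
  push_cast
  linear_combination (233520541368708206055318498958371602207613124608000000 : ℂ) * Complex.I_sq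

/-- one mode of the remainder -/
theorem mode_err {rho U X : Fin m → Fin n → ℂ} (hrho : G2 rho 1) (hU : G2 U 1) (hX : G2 X 1)
    (h : List ℤ) {R : Fin m → Fin n → ℂ} {e : ℝ} (he : 0 ≤ e) (hR : G2 R e) :
    G2 (fun i j => (2 / 10 ^ 8 : ℂ) * (rho i j * ev (U i j) h * R i j * X i j))
      (2 / 10 ^ 8 * (l1 h * e)) := by
  have h1 := ((hrho.mul (G2.of_list hU h) zero_le_one).mul hR (by positivity)).mul hX
    (by positivity)
  have h2 := h1.smul (2 / 10 ^ 8 : ℂ) (by positivity)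
  refine (h2.congr ?_).mono (le_of_eq ?_)
  · ext i j
    simp only [Pi.mul_apply, ev_apply]
  · rw [norm_div, norm_pow]
    norm_num

theorem int5 {Ω : Type*} [MeasurableSpace Ω] {μ : Measure Ω} {f1 f2 f3 f4 f5 : Ω → ℝ}
    (h1 : Integrable f1 μ) (h2 : Integrable f2 μ) (h3 : Integrable f3 μ) (h4 : Integrable f4 μ)
    (h5 : Integrable f5 μ) : ∫ p, (f1 p + f2 p + f3 p + f4 p + f5 p) ∂μ =
      ∫ p, f1 p ∂μ + ∫ p, f2 p ∂μ + ∫ p, f3 p ∂μ + ∫ p, f4 p ∂μ + ∫ p, f5 p ∂μ := by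
  rw [integral_add (f := fun p => f1 p + f2 p + f3 p + f4 p) (((h1.add h2).add h3).add h4) h5,
    integral_add (f := fun p => f1 p + f2 p + f3 p) ((h1.add h2).add h3) h4,
    integral_add (f := fun p => f1 p + f2 p) (h1.add h2) h3, integral_add h1 h2]

theorem integrable_kerQ {N : ℕ} (u v : EuclideanSpace ℝ (Fin N)) (r : ℝ) :
    Integrable (fun p => kerQ r (th u v p)) (gam2 N) := by
  have c1 := integrable_cos u v 1
  simp only [one_mul] at c1
  have c3 := integrable_cos u v 3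
  have c5 := integrable_cos u v 5
  have c7 := integrable_cos u v 7
  have c9 := integrable_cos u v 9
  unfold kerQ
  exact ((((((c1.const_mul _).add (c3.const_mul _)).add (c5.const_mul _)).add
    (c7.const_mul _)).add (c9.const_mul _)).const_mul _).const_mul _

theorem integral_kerQ {N : ℕ} (u v : EuclideanSpace ℝ (Fin N)) (r : ℝ) :
    ∫ p, kerQ r (th u v p) ∂(gam2 N) = 2 / 10 ^ 8 * (r * (ev (r ^ 2) h1 * (TT u v 1).re +
      ev (r ^ 2) h3 * (TT u v 3).re + ev (r ^ 2) h5 * (TT u v 5).re +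
      ev (r ^ 2) h7 * (TT u v 7).re + ev (r ^ 2) h9 * (TT u v 9).re)) := by
  have c1 := integrable_cos u v 1
  simp only [one_mul] at c1
  have c3 := integrable_cos u v 3
  have c5 := integrable_cos u v 5
  have c7 := integrable_cos u v 7
  have c9 := integrable_cos u v 9
  have i1 := integral_cos u v 1
  have i3 := integral_cos u v 3
  have i5 := integral_cos u v 5
  have i7 := integral_cos u v 7
  have i9 := integral_cos u v 9
  push_cast at i1 i3 i5 i7 i9
  simp only [one_mul] at i1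
  unfold kerQ
  rw [integral_const_mul, integral_const_mul,
    int5 (c1.const_mul _) (c3.const_mul _) (c5.const_mul _) (c7.const_mul _) (c9.const_mul _)]
  simp only [integral_const_mul]
  rw [i1, i3, i5, i7, i9]

/-- one mode of the remainder kernel -/
noncomputable def KM (k : ℕ) (h pr pi : List ℤ) (r θ : ℝ) : ℂ :=
  (2 / 10 ^ 8 : ℂ) * ((r : ℂ) * ev ((r : ℂ) ^ 2) h * RR k pr pi ((r : ℂ) ^ 2) *
    cexp ((((k : ℝ) * θ : ℝ) : ℂ) * I))

theorem integrable_KM {N : ℕ} (u v : EuclideanSpace ℝ (Fin N)) (k : ℕ) (h pr pi : List ℤ) (r : ℝ) :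
    Integrable (fun p => KM k h pr pi r (th u v p)) (gam2 N) := by
  unfold KM
  exact ((integrable_phase u v k).const_mul _).const_mul _

theorem integral_KM {N : ℕ} (u v : EuclideanSpace ℝ (Fin N)) (k : ℕ) (h pr pi : List ℤ) (r : ℝ) :
    ∫ p, (KM k h pr pi r (th u v p)).re ∂(gam2 N) = ((2 / 10 ^ 8 : ℂ) * ((r : ℂ) *
      ev ((r : ℂ) ^ 2) h * RR k pr pi ((r : ℂ) ^ 2) * TT u v k)).re := by
  have e := integral_re (integrable_KM u v k h pr pi r)
  have e2 : ∫ p, KM k h pr pi r (th u v p) ∂(gam2 N) = (2 / 10 ^ 8 : ℂ) * ((r : ℂ) *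
      ev ((r : ℂ) ^ 2) h * RR k pr pi ((r : ℂ) ^ 2) * TT u v k) := by
    unfold KM
    rw [integral_const_mul, integral_const_mul, TT]
  rw [e2] at e
  exact e

theorem TT_sub {N : ℕ} (u v : EuclideanSpace ℝ (Fin N)) (hu : ‖u‖ = 1) (hv : ‖v‖ = 1) (k : ℕ)
    (h pr pi : List ℤ) :
    2 / 10 ^ 8 * (inner ℝ u v * (ev ((inner ℝ u v : ℝ) ^ 2) h * (TT u v k).re)) -
      ((2 / 10 ^ 8 : ℂ) * (((inner ℝ u v : ℝ) : ℂ) *
      ev (((inner ℝ u v : ℝ) : ℂ) ^ 2) h * RR k pr pi (((inner ℝ u v : ℝ) : ℂ) ^ 2) *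
        TT u v k)).re =
      2 / 10 ^ 18 * (inner ℝ u v * (ev ((inner ℝ u v : ℝ) ^ 2) h *
        ev ((inner ℝ u v : ℝ) ^ 2) pr)) := by
  set r : ℝ := inner ℝ u v with hr
  have h1 := TT_mul u v hu hv k
  rw [← hr] at h1
  have hz : zc ^ k ≠ 0 := pow_ne_zero _ zc_ne
  have h2 : TT u v k - RR k pr pi ((r : ℂ) ^ 2) * TT u v k =
      (((ev (r ^ 2) pr : ℝ) : ℂ) + I * ((ev (r ^ 2) pi : ℝ) : ℂ)) / 10 ^ 10 := by
    rw [ofReal_ev, ofReal_ev, ofReal_pow, RR]
    generalize ev ((r : ℂ) ^ 2) pr = a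
    generalize ev ((r : ℂ) ^ 2) pi = b
    have e : TT u v k - (1 - (zc ^ k)⁻¹ * (((1 - 156 / 1000 * (k : ℂ) * I) ^ 2 +
        (156 / 1000 * (k : ℂ)) ^ 2 * (r : ℂ) ^ 2) * ((a + I * b) / 10 ^ 10))) * TT u v k =
        (zc ^ k)⁻¹ * (TT u v k * ((1 - 156 / 1000 * (k : ℂ) * I) ^ 2 +
        (156 / 1000 * (k : ℂ)) ^ 2 * (r : ℂ) ^ 2)) * ((a + I * b) / 10 ^ 10) := by ring
    rw [e, h1, inv_mul_cancel₀ hz, one_mul]
  have h3 : 2 / 10 ^ 8 * (r * (ev (r ^ 2) h * (TT u v k).re)) =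
      ((2 / 10 ^ 8 : ℂ) * ((r : ℂ) * ev ((r : ℂ) ^ 2) h * TT u v k)).re := by
    rw [← ofReal_pow, ← ofReal_ev]
    have : (2 / 10 ^ 8 : ℂ) * ((r : ℂ) * ((ev (r ^ 2) h : ℝ) : ℂ) * TT u v k) =
        ((2 / 10 ^ 8 * (r * ev (r ^ 2) h) : ℝ) : ℂ) * TT u v k := by
      push_cast
      ring
    rw [this, re_ofReal_mul]
    ring
  rw [h3, ← sub_re]
  have h4 : (2 / 10 ^ 8 : ℂ) * ((r : ℂ) * ev ((r : ℂ) ^ 2) h * TT u v k) -
      (2 / 10 ^ 8 : ℂ) * ((r : ℂ) * ev ((r : ℂ) ^ 2) h * RR k pr pi ((r : ℂ) ^ 2) * TT u v k) =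
      ((2 / 10 ^ 18 * (r * (ev (r ^ 2) h * ev (r ^ 2) pr)) : ℝ) : ℂ) +
      ((2 / 10 ^ 18 * (r * (ev (r ^ 2) h * ev (r ^ 2) pi)) : ℝ) : ℂ) * I := by
    have e5 : (2 / 10 ^ 8 : ℂ) * ((r : ℂ) * ev ((r : ℂ) ^ 2) h * TT u v k) -
      (2 / 10 ^ 8 : ℂ) * ((r : ℂ) * ev ((r : ℂ) ^ 2) h * RR k pr pi ((r : ℂ) ^ 2) * TT u v k) =
      (2 / 10 ^ 8 : ℂ) * ((r : ℂ) * ev ((r : ℂ) ^ 2) h *
        (TT u v k - RR k pr pi ((r : ℂ) ^ 2) * TT u v k)) := by ring
    rw [e5, h2]
    push_cast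
    simp only [ofReal_ev, ofReal_pow]
    ring
  rw [h4, add_re, ofReal_re, re_ofReal_mul, I_re, mul_zero, add_zero]

/-- the main estimate for unit vectors of a Euclidean space -/
theorem main_unit {N : ℕ} (hK : IsGrothendieckBound 2) (A : Matrix (Fin m) (Fin n) ℝ)
    (u : Fin m → EuclideanSpace ℝ (Fin N)) (v : Fin n → EuclideanSpace ℝ (Fin N))
    (hu : ∀ i, ‖u i‖ = 1) (hv : ∀ j, ‖v j‖ = 1) :
    |∑ i, ∑ j, A i j * inner ℝ (u i) (v j)| ≤ 178136 / 100000 * beta A := by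
  set ρ : Fin m → Fin n → ℝ := fun i j => inner ℝ (u i) (v j) with hρ
  have hrho : G2 (fun i j => (ρ i j : ℂ)) 1 := G2.ip u v (fun i => (hu i).le) fun j => (hv j).le
  have hU : G2 (fun i j => (ρ i j : ℂ) ^ 2) 1 := by
    have := hrho.mul hrho zero_le_one
    rw [one_mul] at this
    refine this.congr ?_
    ext i j
    simp only [Pi.mul_apply]
    ring
  have hβ : 0 ≤ beta A := by
    have := Kriv.le_beta A (fun _ => 0) (fun _ => 0) (by simp) (by simp)
    simpa using this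
  -- the twisted kernel
  have hS : |∑ i, ∑ j, A i j * ∫ p, kerQ (ρ i j) (th (u i) (v j) p) ∂(gam2 N)| ≤
      Real.pi / 2 * beta A := by
    refine average (gam2 N) A _ (fun i j => integrable_kerQ _ _ _) _ fun p => ?_
    · set a : Fin m → ℝ := fun i => 78 / 1000 * ((inner ℝ (u i) p.1 : ℝ) ^ 2 +
        (inner ℝ (u i) p.2 : ℝ) ^ 2) - kap with ha
      set b : Fin n → ℝ := fun j => -(78 / 1000 * ((inner ℝ (v j) p.1 : ℝ) ^ 2 +
        (inner ℝ (v j) p.2 : ℝ) ^ 2)) with hb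
      have hth : ∀ i j, th (u i) (v j) p = a i - b j := fun i j => by
        simp only [th, ha, hb]; ring
      have hXi : G2 (fun i j => cexp (((-th (u i) (v j) p : ℝ) : ℂ) * I)) 1 := by
        refine (G2.phase (fun i => -a i) (fun j => -b j)).congr ?_
        ext i j
        rw [hth]
        congr 3
        ring
      have hW : G2 (fun i j => cexp (((2 * th (u i) (v j) p : ℝ) : ℂ) * I)) 1 := by
        refine (G2.phase (fun i => 2 * a i) (fun j => 2 * b j)).congr ?_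
        ext i j
        rw [hth]
        congr 3
        ring
      have hc := cert (wo := 15) (we := 14) (t1 := 8) (t2 := 7) (by norm_num) (by norm_num)
        hrho hXi hU hW (fun i j => rfl) (fun i j => ?_) (by norm_num) (by norm_num) chkQ
        (fun i j => kerQ (ρ i j) (th (u i) (v j) p)) (fun i j => kerQ_eval _ _)
      · exact sin_round A _ hc.1 hc.2
      · rw [← Complex.exp_nat_mul, ← Complex.exp_add]
        rw [show ((2 : ℕ) : ℂ) * (((-th (u i) (v j) p : ℝ) : ℂ) * I) +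
          ((2 * th (u i) (v j) p : ℝ) : ℂ) * I = 0 by push_cast; ring, Complex.exp_zero]
  -- the untwisted kernel
  have hM : |∑ i, ∑ j, A i j * (1 / 10 ^ 18 * (ρ i j * ev (ρ i j ^ 2) mM))| ≤
      Real.pi / 2 * beta A := by
    have hone : G2 (fun (_ : Fin m) (_ : Fin n) => (1 : ℂ)) 1 := G2.one
    have hc := cert (wo := 0) (we := 0) (t1 := 0) (t2 := 0) (by norm_num) (by norm_num)
      hrho hone hU hone (fun i j => rfl) (fun i j => by norm_num) (by norm_num) (by norm_num) chkM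
      (fun i j => 1 / 10 ^ 18 * (ρ i j * ev (ρ i j ^ 2) mM)) (fun i j => ?_)
    · exact sin_round A _ hc.1 hc.2
    · push_cast
      rw [ofReal_ev]
      simp only [ev2_cons, ev2_nil, ofReal_pow]
      ring
  -- the remainder
  set KE : ℝ → ℝ → ℂ := fun r θ => KM 1 h1 pr1 pi1 r θ + KM 3 h3 pr3 pi3 r θ +
    KM 5 h5 pr5 pi5 r θ + KM 7 h7 pr7 pi7 r θ + KM 9 h9 pr9 pi9 r θ with hKE
  have hE : |∑ i, ∑ j, A i j * ∫ p, (KE (ρ i j) (th (u i) (v j) p)).re ∂(gam2 N)| ≤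
      2 * (13 / 10 ^ 7) * beta A := by
    refine average (gam2 N) A _ (fun i j => ?_) _ fun p => ?_
    · have hi : Integrable (fun p => KE (ρ i j) (th (u i) (v j) p)) (gam2 N) :=
        ((((integrable_KM (u i) (v j) 1 h1 pr1 pi1 _).add
          (integrable_KM (u i) (v j) 3 h3 pr3 pi3 _)).add
          (integrable_KM (u i) (v j) 5 h5 pr5 pi5 _)).add
          (integrable_KM (u i) (v j) 7 h7 pr7 pi7 _)).add
          (integrable_KM (u i) (v j) 9 h9 pr9 pi9 _)
      exact hi.re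
    · have hX : ∀ k : ℕ, G2 (fun i j => cexp ((((k : ℝ) * th (u i) (v j) p : ℝ) : ℂ) * I)) 1 := by
        intro k
        refine (G2.phase (fun i => k * (78 / 1000 * ((inner ℝ (u i) p.1 : ℝ) ^ 2 +
          (inner ℝ (u i) p.2 : ℝ) ^ 2) - kap)) (fun j => -(k * (78 / 1000 *
          ((inner ℝ (v j) p.1 : ℝ) ^ 2 + (inner ℝ (v j) p.2 : ℝ) ^ 2))))).congr ?_
        ext i j
        simp only [th]
        congr 3
        ring
      have r1 := mode_err hrho hU (hX 1) h1 (e := 9904 / 10 ^ 12) (by positivity)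
        (resid hU 1 (975664) (-312000) zpow1 pr1 pi1 9904 res1)
      have r3 := mode_err hrho hU (hX 3) h3 (e := 1287275 / 10 ^ 12) (by positivity)
        (resid hU 3 (643829200665554944) (-860626017478656000) zpow3 pr3 pi3 1287275 res3)
      have r5 := mode_err hrho hU (hX 5) h5 (e := 84543504 / 10 ^ 12) (by positivity)
        (resid hU 5 (26239680708254058540851789824) (-1127442994134815627697192960000) zpow5 pr5 pi5 84543504 res5)
      have r7 := mode_err hrho hU (hX 7) h7 (e := 897669741 / 10 ^ 12) (by positivity)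
        (resid hU 7 (-663979650150068626631713095608607174557696) (-979461089539509419325355632024065409024000) zpow7 pr7 pi7 897669741 res7)
      have r9 := mode_err hrho hU (hX 9) h9 (e := 4014933544 / 10 ^ 12) (by positivity)
        (resid hU 9 (-1163731186322519822115666688540570682551366507210735616) (-432783846178948095961827867548009360188174812315648000) zpow9 pr9 pi9 4014933544 res9)
      have ra := (((r1.add r3).add r5).add r7).add r9
      have rb : G2 (fun i j => KE (ρ i j) (th (u i) (v j) p)) (13 / 10 ^ 7) := by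
        refine (ra.congr ?_).mono ?_
        · ext i j
          simp only [hKE, KM, Pi.add_apply]
        · have k1 : l1 h1 = 45577228 := by decide +kernel
          have k3 : l1 h3 = 1741994 := by decide +kernel
          have k5 : l1 h5 = 192113 := by decide +kernel
          have k7 : l1 h7 = 28232 := by decide +kernel
          have k9 : l1 h9 = 4675 := by decide +kernel
          rw [k1, k3, k5, k7, k9]
          norm_num
      exact err_G2 hK A _ (by positivity) rb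
  -- the identity
  have hid : ∀ i j, (cc : ℝ) / 10 ^ 8 * ρ i j =
      4 / 5 * ((∫ p, kerQ (ρ i j) (th (u i) (v j) p) ∂(gam2 N)) -
        ∫ p, (KE (ρ i j) (th (u i) (v j) p)).re ∂(gam2 N)) +
      1 / 5 * (1 / 10 ^ 18 * (ρ i j * ev (ρ i j ^ 2) mM)) := by
    intro i j
    have e1 := TT_sub (u i) (v j) (hu i) (hv j) 1 h1 pr1 pi1
    have e3 := TT_sub (u i) (v j) (hu i) (hv j) 3 h3 pr3 pi3
    have e5 := TT_sub (u i) (v j) (hu i) (hv j) 5 h5 pr5 pi5
    have e7 := TT_sub (u i) (v j) (hu i) (hv j) 7 h7 pr7 pi7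
    have e9 := TT_sub (u i) (v j) (hu i) (hv j) 9 h9 pr9 pi9
    have q1 := integral_KM (u i) (v j) 1 h1 pr1 pi1 (ρ i j)
    have q3 := integral_KM (u i) (v j) 3 h3 pr3 pi3 (ρ i j)
    have q5 := integral_KM (u i) (v j) 5 h5 pr5 pi5 (ρ i j)
    have q7 := integral_KM (u i) (v j) 7 h7 pr7 pi7 (ρ i j)
    have q9 := integral_KM (u i) (v j) 9 h9 pr9 pi9 (ρ i j)
    have jj : ∀ (k : ℕ) (h pr pi : List ℤ), Integrable (fun p =>
        (KM k h pr pi (ρ i j) (th (u i) (v j) p)).re) (gam2 N) := fun k h pr pi =>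
      (integrable_KM (u i) (v j) k h pr pi (ρ i j)).re
    have qE : ∫ p, (KE (ρ i j) (th (u i) (v j) p)).re ∂(gam2 N) =
        (∫ p, (KM 1 h1 pr1 pi1 (ρ i j) (th (u i) (v j) p)).re ∂(gam2 N)) +
        (∫ p, (KM 3 h3 pr3 pi3 (ρ i j) (th (u i) (v j) p)).re ∂(gam2 N)) +
        (∫ p, (KM 5 h5 pr5 pi5 (ρ i j) (th (u i) (v j) p)).re ∂(gam2 N)) +
        (∫ p, (KM 7 h7 pr7 pi7 (ρ i j) (th (u i) (v j) p)).re ∂(gam2 N)) +
        ∫ p, (KM 9 h9 pr9 pi9 (ρ i j) (th (u i) (v j) p)).re ∂(gam2 N) := by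
      rw [← int5 (jj 1 h1 pr1 pi1) (jj 3 h3 pr3 pi3) (jj 5 h5 pr5 pi5) (jj 7 h7 pr7 pi7)
        (jj 9 h9 pr9 pi9)]
      refine integral_congr_ae (Filter.Eventually.of_forall fun p => ?_)
      simp only [hKE, add_re]
    rw [qE, q1, q3, q5, q7, q9, integral_kerQ]
    have hm : ev (ρ i j ^ 2) mM = 5 * (cc : ℝ) * 10 ^ 10 - 8 * (ev (ρ i j ^ 2) h1 *
        ev (ρ i j ^ 2) pr1 + (ev (ρ i j ^ 2) h3 * ev (ρ i j ^ 2) pr3 +
        (ev (ρ i j ^ 2) h5 * ev (ρ i j ^ 2) pr5 + (ev (ρ i j ^ 2) h7 * ev (ρ i j ^ 2) pr7 +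
        ev (ρ i j ^ 2) h9 * ev (ρ i j ^ 2) pr9)))) := by
      rw [mM_eq]
      simp only [ev_ladd, ev_lscal, ev_lmul, ev_cons, ev_nil]
      push_cast
      ring
    rw [hm]
    linear_combination (-(4 / 5 : ℝ)) * (e1 + e3 + e5 + e7 + e9)
  have hsum : (cc : ℝ) / 10 ^ 8 * ∑ i, ∑ j, A i j * inner ℝ (u i) (v j) =
      4 / 5 * ((∑ i, ∑ j, A i j * ∫ p, kerQ (ρ i j) (th (u i) (v j) p) ∂(gam2 N)) -
        ∑ i, ∑ j, A i j * ∫ p, (KE (ρ i j) (th (u i) (v j) p)).re ∂(gam2 N)) +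
      1 / 5 * ∑ i, ∑ j, A i j * (1 / 10 ^ 18 * (ρ i j * ev (ρ i j ^ 2) mM)) := by
    rw [← Finset.sum_sub_distrib, Finset.mul_sum, Finset.mul_sum, Finset.mul_sum,
      ← Finset.sum_add_distrib]
    refine Finset.sum_congr rfl fun i _ => ?_
    rw [← Finset.sum_sub_distrib, Finset.mul_sum, Finset.mul_sum, Finset.mul_sum,
      ← Finset.sum_add_distrib]
    refine Finset.sum_congr rfl fun j _ => ?_
    have := hid i j
    simp only [hρ] at this ⊢
    linear_combination (A i j) * this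
  have hcc : (cc : ℝ) = 88179772 := by norm_num [cc]
  rw [hcc] at hsum
  have hpi := Real.pi_lt_d6
  rw [abs_le] at hS hM hE ⊢
  set X := ∑ i, ∑ j, A i j * inner ℝ (u i) (v j)
  have hπβ : Real.pi / 2 * beta A ≤ 3.141593 / 2 * beta A :=
    mul_le_mul_of_nonneg_right (by linarith) hβ
  constructor
  · linarith [hS.1, hM.1, hE.2, hsum, hπβ, hβ]
  · linarith [hS.2, hM.2, hE.1, hsum, hπβ, hβ]

/-- reduction to unit vectors of a Euclidean space -/
theorem reduce_unit {K : ℝ} (h : ∀ (m n N : ℕ) (A : Matrix (Fin m) (Fin n) ℝ)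
    (u : Fin m → EuclideanSpace ℝ (Fin N)) (v : Fin n → EuclideanSpace ℝ (Fin N)),
    (∀ i, ‖u i‖ = 1) → (∀ j, ‖v j‖ = 1) →
    |∑ i, ∑ j, A i j * inner ℝ (u i) (v j)| ≤ K * beta A) : IsGrothendieckBound K := by
  intro m n A H _ _ _ u v hu hv
  let u' : Fin m → WithLp 2 (H × EuclideanSpace ℝ (Fin 2)) := fun i =>
    WithLp.toLp 2 (u i, !₂[√(1 - ‖u i‖ ^ 2), 0])
  let v' : Fin n → WithLp 2 (H × EuclideanSpace ℝ (Fin 2)) := fun j =>
    WithLp.toLp 2 (v j, !₂[0, √(1 - ‖v j‖ ^ 2)])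
  have hin : ∀ i j, inner ℝ (u' i) (v' j) = inner ℝ (u i) (v j) := by
    intro i j
    simp [u', v', WithLp.prod_inner_apply, PiLp.inner_apply]
  have hu' : ∀ i, ‖u' i‖ = 1 := by
    intro i
    have h1 : (0 : ℝ) ≤ 1 - ‖u i‖ ^ 2 := by nlinarith [hu i, norm_nonneg (u i)]
    have h2 : ‖u' i‖ ^ 2 = 1 := by
      rw [← real_inner_self_eq_norm_sq, WithLp.prod_inner_apply]
      simp [u', EuclideanSpace.norm_sq_eq, Real.sq_sqrt h1]
    nlinarith [norm_nonneg (u' i)]
  have hv' : ∀ j, ‖v' j‖ = 1 := by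
    intro j
    have h1 : (0 : ℝ) ≤ 1 - ‖v j‖ ^ 2 := by nlinarith [hv j, norm_nonneg (v j)]
    have h2 : ‖v' j‖ ^ 2 = 1 := by
      rw [← real_inner_self_eq_norm_sq, WithLp.prod_inner_apply]
      simp [v', EuclideanSpace.norm_sq_eq, Real.sq_sqrt h1]
    nlinarith [norm_nonneg (v' j)]
  obtain ⟨N, F, hF⟩ := Kriv.exists_vectors (Matrix.gram ℝ (Sum.elim u' v'))
    (Matrix.posSemidef_gram ℝ _)
  have hnF : ∀ s, ‖F s‖ = 1 := by
    intro s
    have h1 := hF s s
    have h2 : Matrix.gram ℝ (Sum.elim u' v') s s = 1 := by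
      change inner ℝ (Sum.elim u' v' s) (Sum.elim u' v' s) = (1 : ℝ)
      rw [real_inner_self_eq_norm_sq]
      rcases s with i | j
      · simp [hu']
      · simp [hv']
    rw [h2, real_inner_self_eq_norm_sq] at h1
    nlinarith [norm_nonneg (F s)]
  have h3 := h m n N A (fun i => F (Sum.inl i)) (fun j => F (Sum.inr j)) (fun i => hnF _)
    (fun j => hnF _)
  have h4 : ∀ i j, inner ℝ (F (Sum.inl i)) (F (Sum.inr j)) = inner ℝ (u i) (v j) := by
    intro i j
    rw [hF, ← hin]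
    rfl
  simpa only [h4] using h3

theorem beta_nonneg (A : Matrix (Fin m) (Fin n) ℝ) : 0 ≤ beta A := by
  have := Kriv.le_beta A (fun _ => 0) (fun _ => 0) (by simp) (by simp)
  simpa using this

/-- Krivine's constant is less than two -/
theorem bound_two : IsGrothendieckBound 2 := by
  intro m n A H _ _ _ u v hu hv
  refine (krivine m n A H u v hu hv).trans (mul_le_mul_of_nonneg_right ?_ (beta_nonneg A))
  have h1 : (4 / 5 : ℝ) ≤ Real.arsinh 1 := by
    rw [← Real.arsinh_sinh (4 / 5)]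
    refine Real.arsinh_le_arsinh.2 ?_
    have h2 : Real.exp (4 / 5) ≤ 23 / 10 := by
      have := Real.exp_bound' (x := 4 / 5) (by norm_num) (by norm_num) (n := 5) (by norm_num)
      refine this.trans ?_
      norm_num [Finset.sum_range_succ, Nat.factorial]
    have h3 : (2 / 5 : ℝ) ≤ Real.exp (-(4 / 5)) := by
      rw [Real.exp_neg, ← one_div, le_div_iff₀ (Real.exp_pos _)]
      linarith
    rw [Real.sinh_eq]
    linarith
  have hpi := Real.pi_lt_d6
  rw [div_le_iff₀ (by linarith)]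
  linarith

/-- **The explicit upper bound**: Grothendieck's inequality holds with the constant `1.78136`. -/
theorem grothendieck_178136 : IsGrothendieckBound (178136 / 100000) :=
  reduce_unit fun _ _ _ A u v hu hv => main_unit bound_two A u v hu hv

end Pool.Agent.KR23
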