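import Mathlib
import Pool.Agent.KG.Krivine

/-! A better upper bound for the real Grothendieck constant: the factorisation norm of kernels.

`G2 g d` says that the matrix `g` is the matrix of scalar products of complex vectors of squared
norm at most `d`. -/

open scoped BigOperators

namespace Pool.Agent.KR23

variable {m n : ℕ}

/-- `g` has factorisation norm at most `d` -/
def G2 (g : Fin m → Fin n → ℂ) (d : ℝ) : Prop :=
  ∃ (ι : Type) (_ : Fintype ι) (F : Fin m → ι → ℂ) (G : Fin n → ι → ℂ),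
    (∀ i, ∑ t, ‖F i t‖ ^ 2 ≤ d) ∧ (∀ j, ∑ t, ‖G j t‖ ^ 2 ≤ d) ∧
      ∀ i j, ∑ t, F i t * G j t = g i j

theorem G2.mono {g : Fin m → Fin n → ℂ} {d e : ℝ} (h : G2 g d) (hde : d ≤ e) : G2 g e := by
  obtain ⟨ι, _, F, G, h1, h2, h3⟩ := h
  exact ⟨ι, _, F, G, fun i => (h1 i).trans hde, fun j => (h2 j).trans hde, h3⟩

theorem G2.congr {g g' : Fin m → Fin n → ℂ} {d : ℝ} (h : G2 g d) (hg : g = g') : G2 g' d := hg ▸ h

theorem G2.zero : G2 (0 : Fin m → Fin n → ℂ) 0 :=
  ⟨Fin 0, inferInstance, fun _ _ => 0, fun _ _ => 0, by simp, by simp, by simp⟩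

theorem G2.add {g g' : Fin m → Fin n → ℂ} {d d' : ℝ} (h : G2 g d) (h' : G2 g' d') :
    G2 (g + g') (d + d') := by
  obtain ⟨ι, _, F, G, h1, h2, h3⟩ := h
  obtain ⟨ι', _, F', G', h1', h2', h3'⟩ := h'
  refine ⟨ι ⊕ ι', inferInstance, fun i => Sum.elim (F i) (F' i), fun j => Sum.elim (G j) (G' j),
    fun i => ?_, fun j => ?_, fun i j => ?_⟩
  · rw [Fintype.sum_sum_type]; exact add_le_add (h1 i) (h1' i)
  · rw [Fintype.sum_sum_type]; exact add_le_add (h2 j) (h2' j)
  · rw [Fintype.sum_sum_type]; simp only [Sum.elim_inl, Sum.elim_inr, Pi.add_apply]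
    rw [h3, h3']

theorem G2.mul {g g' : Fin m → Fin n → ℂ} {d d' : ℝ} (h : G2 g d) (h' : G2 g' d')
    (hd : 0 ≤ d) : G2 (g * g') (d * d') := by
  obtain ⟨ι, _, F, G, h1, h2, h3⟩ := h
  obtain ⟨ι', _, F', G', h1', h2', h3'⟩ := h'
  refine ⟨ι × ι', inferInstance, fun i p => F i p.1 * F' i p.2, fun j p => G j p.1 * G' j p.2,
    fun i => ?_, fun j => ?_, fun i j => ?_⟩
  · simp_rw [norm_mul, mul_pow]
    rw [Fintype.sum_prod_type]
    simp_rw [← Finset.mul_sum, ← Finset.sum_mul]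
    exact mul_le_mul (h1 i) (h1' i) (Finset.sum_nonneg fun _ _ => by positivity) hd
  · simp_rw [norm_mul, mul_pow]
    rw [Fintype.sum_prod_type]
    simp_rw [← Finset.mul_sum, ← Finset.sum_mul]
    exact mul_le_mul (h2 j) (h2' j) (Finset.sum_nonneg fun _ _ => by positivity) hd
  · rw [Pi.mul_apply, Pi.mul_apply, ← h3, ← h3', Finset.sum_mul_sum, Fintype.sum_prod_type]
    refine Finset.sum_congr rfl fun s _ => Finset.sum_congr rfl fun t _ => by ring

theorem G2.smul {g : Fin m → Fin n → ℂ} {d : ℝ} (h : G2 g d) (c : ℂ) (hd : 0 ≤ d) :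
    G2 (fun i j => c * g i j) (‖c‖ * d) := by
  have hc : G2 (fun (_ : Fin m) (_ : Fin n) => c) ‖c‖ := by
    rcases eq_or_ne c 0 with rfl | hc
    · exact ((G2.zero : G2 (0 : Fin m → Fin n → ℂ) 0).mono (norm_nonneg _)).congr rfl
    have h0 : (0 : ℝ) < ‖c‖ := norm_pos_iff.2 hc
    refine ⟨Unit, inferInstance, fun _ _ => c / (√‖c‖ : ℝ), fun _ _ => ((√‖c‖ : ℝ) : ℂ), fun _ => ?_,
      fun _ => ?_, fun _ _ => ?_⟩
    · simp only [Finset.univ_unique, Finset.sum_singleton, norm_div, Complex.norm_real,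
        Real.norm_eq_abs, abs_of_nonneg (Real.sqrt_nonneg _), div_pow, Real.sq_sqrt h0.le]
      rw [sq, mul_div_assoc, div_self h0.ne', mul_one]
    · simp only [Finset.univ_unique, Finset.sum_singleton, Complex.norm_real,
        Real.norm_eq_abs, abs_of_nonneg (Real.sqrt_nonneg _), Real.sq_sqrt h0.le, le_refl]
    · simp only [Finset.univ_unique, Finset.sum_singleton]
      have : ((√‖c‖ : ℝ) : ℂ) ≠ 0 := by
        rw [Complex.ofReal_ne_zero]; exact (Real.sqrt_pos.2 h0).ne'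
      field_simp
  exact (hc.mul h (norm_nonneg _)).congr (by ext i j; rfl)

theorem G2.nonneg [NeZero m] {g : Fin m → Fin n → ℂ} {d : ℝ} (h : G2 g d) : 0 ≤ d := by
  obtain ⟨ι, _, F, G, h1, h2, h3⟩ := h
  exact (Finset.sum_nonneg fun _ _ => by positivity).trans (h1 0)

/-- the constant matrix one -/
theorem G2.one : G2 (1 : Fin m → Fin n → ℂ) 1 :=
  ⟨Unit, inferInstance, fun _ _ => 1, fun _ _ => 1, by simp, by simp, by simp⟩

theorem G2.const (c : ℂ) : G2 (fun (_ : Fin m) (_ : Fin n) => c) ‖c‖ := by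
  have h := (G2.one : G2 (1 : Fin m → Fin n → ℂ) 1).smul c zero_le_one
  simpa using h

theorem G2.pow {g : Fin m → Fin n → ℂ} {d : ℝ} (h : G2 g d) (hd : 0 ≤ d) (k : ℕ) :
    G2 (g ^ k) (d ^ k) := by
  induction k with
  | zero => simpa using (G2.one : G2 (1 : Fin m → Fin n → ℂ) 1)
  | succ k ih => rw [pow_succ, pow_succ]; exact ih.mul h (by positivity)

/-- the kernel of scalar products of real unit vectors -/
theorem G2.ip {N : ℕ} (u : Fin m → EuclideanSpace ℝ (Fin N)) (v : Fin n → EuclideanSpace ℝ (Fin N))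
    (hu : ∀ i, ‖u i‖ ≤ 1) (hv : ∀ j, ‖v j‖ ≤ 1) :
    G2 (fun i j => ((inner ℝ (u i) (v j) : ℝ) : ℂ)) 1 := by
  refine ⟨Fin N, inferInstance, fun i t => (u i t : ℂ), fun j t => (v j t : ℂ), fun i => ?_,
    fun j => ?_, fun i j => ?_⟩
  · simp only [Complex.norm_real]
    rw [← EuclideanSpace.norm_sq_eq]
    exact pow_le_one₀ (norm_nonneg _) (hu i)
  · simp only [Complex.norm_real]
    rw [← EuclideanSpace.norm_sq_eq]
    exact pow_le_one₀ (norm_nonneg _) (hv j)
  · simp only [PiLp.inner_apply, RCLike.inner_apply, conj_trivial]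
    push_cast
    exact Finset.sum_congr rfl fun t _ => by ring

/-- the kernel of a difference of phases -/
theorem G2.phase (a : Fin m → ℝ) (b : Fin n → ℝ) :
    G2 (fun i j => Complex.exp (((a i - b j : ℝ) : ℂ) * Complex.I)) 1 := by
  refine ⟨Unit, inferInstance, fun i _ => Complex.exp ((a i : ℂ) * Complex.I),
    fun j _ => Complex.exp (((-b j : ℝ) : ℂ) * Complex.I), fun i => ?_, fun j => ?_, fun i j => ?_⟩
  · simp [Complex.norm_exp_ofReal_mul_I]
  · simp only [Finset.univ_unique, Finset.sum_singleton, Complex.norm_exp_ofReal_mul_I]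
    norm_num
  · simp only [Finset.univ_unique, Finset.sum_singleton]
    rw [← Complex.exp_add]
    congr 1
    push_cast
    ring

theorem G2.norm_le {g : Fin m → Fin n → ℂ} {d : ℝ} (h : G2 g d) (i : Fin m) (j : Fin n) :
    ‖g i j‖ ≤ d := by
  obtain ⟨ι, _, F, G, h1, h2, h3⟩ := h
  rw [← h3]
  calc ‖∑ t, F i t * G j t‖ ≤ ∑ t, ‖F i t * G j t‖ := norm_sum_le _ _
    _ ≤ ∑ t, (‖F i t‖ ^ 2 + ‖G j t‖ ^ 2) / 2 := by
        refine Finset.sum_le_sum fun t _ => ?_
        rw [norm_mul]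
        nlinarith [sq_nonneg (‖F i t‖ - ‖G j t‖)]
    _ = (∑ t, ‖F i t‖ ^ 2 + ∑ t, ‖G j t‖ ^ 2) / 2 := by
        rw [← Finset.sum_div, Finset.sum_add_distrib]
    _ ≤ d := by linarith [h1 i, h2 j]

/-- A matrix of factorisation norm at most `d` has a real part which is a matrix of scalar products
of real vectors of squared norm at most `d`. -/
theorem G2.real {g : Fin m → Fin n → ℂ} {d : ℝ} (h : G2 g d) :
    ∃ (ι : Type) (_ : Fintype ι) (F : Fin m → EuclideanSpace ℝ ι) (G : Fin n → EuclideanSpace ℝ ι),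
      (∀ i, ‖F i‖ ^ 2 ≤ d) ∧ (∀ j, ‖G j‖ ^ 2 ≤ d) ∧ ∀ i j, inner ℝ (F i) (G j) = (g i j).re := by
  obtain ⟨ι, _, F, G, h1, h2, h3⟩ := h
  refine ⟨ι ⊕ ι, inferInstance,
    fun i => WithLp.toLp 2 (Sum.elim (fun t => (F i t).re) (fun t => -(F i t).im)),
    fun j => WithLp.toLp 2 (Sum.elim (fun t => (G j t).re) (fun t => (G j t).im)),
    fun i => ?_, fun j => ?_, fun i j => ?_⟩
  · rw [EuclideanSpace.norm_sq_eq, Fintype.sum_sum_type]
    refine le_trans (le_of_eq ?_) (h1 i)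
    rw [← Finset.sum_add_distrib]
    refine Finset.sum_congr rfl fun t _ => ?_
    simp only [Sum.elim_inl, Sum.elim_inr, Real.norm_eq_abs, sq_abs]
    rw [Complex.sq_norm, Complex.normSq_apply]
    ring
  · rw [EuclideanSpace.norm_sq_eq, Fintype.sum_sum_type]
    refine le_trans (le_of_eq ?_) (h2 j)
    rw [← Finset.sum_add_distrib]
    refine Finset.sum_congr rfl fun t _ => ?_
    simp only [Sum.elim_inl, Sum.elim_inr, Real.norm_eq_abs, sq_abs]
    rw [Complex.sq_norm, Complex.normSq_apply]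
    ring
  · rw [← h3, Complex.re_sum, PiLp.inner_apply, Fintype.sum_sum_type, ← Finset.sum_add_distrib]
    refine Finset.sum_congr rfl fun t _ => ?_
    simp only [Sum.elim_inl, Sum.elim_inr, RCLike.inner_apply, conj_trivial, Complex.mul_re]
    ring

end Pool.Agent.KR23
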