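import Pool.Agent.KR23.Round

/-! Polynomials with integer coefficients as lists, evaluated in a commutative ring, and the
certificate for the norm of the sine of a kernel. -/

open scoped BigOperators

namespace Pool.Agent.KR23

/-- evaluation of a polynomial -/
def ev {R : Type*} [CommRing R] (x : R) : List ℤ → R
  | [] => 0
  | a :: l => (a : R) + x * ev x l

/-- evaluation of a polynomial in two variables (outer variable `w`, inner variable `u`) -/
def ev2 {R : Type*} [CommRing R] (w u : R) : List (List ℤ) → R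
  | [] => 0
  | r :: l => ev u r + w * ev2 w u l

def ladd : List ℤ → List ℤ → List ℤ
  | [], l => l
  | a :: l, [] => a :: l
  | a :: l, b :: l' => (a + b) :: ladd l l'

def lscal (c : ℤ) : List ℤ → List ℤ
  | [] => []
  | a :: l => (c * a) :: lscal c l

def lmul : List ℤ → List ℤ → List ℤ
  | [], _ => []
  | a :: l, l' => if a = 0 then 0 :: lmul l l' else ladd (lscal a l') (0 :: lmul l l')

def ladd2 : List (List ℤ) → List (List ℤ) → List (List ℤ)
  | [], l => l
  | a :: l, [] => a :: l
  | a :: l, b :: l' => ladd a b :: ladd2 l l'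

def lscal2 (c : ℤ) : List (List ℤ) → List (List ℤ)
  | [] => []
  | a :: l => lscal c a :: lscal2 c l

def lrow (r : List ℤ) : List (List ℤ) → List (List ℤ)
  | [] => []
  | a :: l => lmul r a :: lrow r l

def lmul2 : List (List ℤ) → List (List ℤ) → List (List ℤ)
  | [], _ => []
  | a :: l, l' => if a = [] then [] :: lmul2 l l' else ladd2 (lrow a l') ([] :: lmul2 l l')

/-- multiplication by the inner variable -/
def lpad : List (List ℤ) → List (List ℤ)
  | [] => []
  | a :: l => (0 :: a) :: lpad l

/-- multiplication by a power of the outer variable -/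
def lshift (t : ℕ) (p : List (List ℤ)) : List (List ℤ) :=
  match t with
  | 0 => p
  | t + 1 => [] :: lshift t p

def l1 : List ℤ → ℕ
  | [] => 0
  | a :: l => a.natAbs + l1 l

def l12 : List (List ℤ) → ℕ
  | [] => 0
  | a :: l => l1 a + l12 l

section eval

variable {R : Type*} [CommRing R] (x w u : R)

@[simp] theorem ev_nil : ev x [] = 0 := rfl

@[simp] theorem ev_cons (a : ℤ) (l : List ℤ) : ev x (a :: l) = (a : R) + x * ev x l := rfl

@[simp] theorem ev2_nil : ev2 w u [] = 0 := rfl

@[simp] theorem ev2_cons (r : List ℤ) (l : List (List ℤ)) :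
    ev2 w u (r :: l) = ev u r + w * ev2 w u l := rfl

theorem ev_ladd : ∀ l l' : List ℤ, ev x (ladd l l') = ev x l + ev x l'
  | [], l' => by simp [ladd]
  | a :: l, [] => by simp [ladd]
  | a :: l, b :: l' => by
      simp only [ladd, ev_cons, ev_ladd l l', Int.cast_add]
      ring

theorem ev_lscal (c : ℤ) : ∀ l : List ℤ, ev x (lscal c l) = (c : R) * ev x l
  | [] => by simp [lscal]
  | a :: l => by
      simp only [lscal, ev_cons, ev_lscal c l, Int.cast_mul]
      ring

theorem ev_lmul : ∀ l l' : List ℤ, ev x (lmul l l') = ev x l * ev x l'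
  | [], l' => by simp [lmul]
  | a :: l, l' => by
      unfold lmul
      split_ifs with h
      · simp only [ev_cons, ev_lmul l l', h, Int.cast_zero]
        ring
      · simp only [ev_ladd, ev_lscal, ev_cons, ev_lmul l l', Int.cast_zero]
        ring

theorem ev2_ladd2 : ∀ l l' : List (List ℤ), ev2 w u (ladd2 l l') = ev2 w u l + ev2 w u l'
  | [], l' => by simp [ladd2]
  | a :: l, [] => by simp [ladd2]
  | a :: l, b :: l' => by
      simp only [ladd2, ev2_cons, ev2_ladd2 l l', ev_ladd]
      ring

theorem ev2_lscal2 (c : ℤ) : ∀ l : List (List ℤ), ev2 w u (lscal2 c l) = (c : R) * ev2 w u l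
  | [] => by simp [lscal2]
  | a :: l => by
      simp only [lscal2, ev2_cons, ev2_lscal2 c l, ev_lscal]
      ring

theorem ev2_lrow (r : List ℤ) : ∀ l : List (List ℤ), ev2 w u (lrow r l) = ev u r * ev2 w u l
  | [] => by simp [lrow]
  | a :: l => by
      simp only [lrow, ev2_cons, ev2_lrow r l, ev_lmul]
      ring

theorem ev2_lmul2 : ∀ l l' : List (List ℤ), ev2 w u (lmul2 l l') = ev2 w u l * ev2 w u l'
  | [], l' => by simp [lmul2]
  | a :: l, l' => by
      unfold lmul2
      split_ifs with h
      · simp only [ev2_cons, ev2_lmul2 l l', h, ev_nil]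
        ring
      · simp only [ev2_ladd2, ev2_lrow, ev2_cons, ev2_lmul2 l l', ev_nil]
        ring

theorem ev2_lpad : ∀ l : List (List ℤ), ev2 w u (lpad l) = u * ev2 w u l
  | [] => by simp [lpad]
  | a :: l => by
      simp only [lpad, ev2_cons, ev2_lpad l, ev_cons, Int.cast_zero]
      ring

theorem ev2_lshift : ∀ (t : ℕ) (l : List (List ℤ)), ev2 w u (lshift t l) = w ^ t * ev2 w u l
  | 0, l => by simp [lshift]
  | t + 1, l => by
      simp only [lshift, ev2_cons, ev2_lshift t l, ev_nil]
      ring

end eval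

variable {m n : ℕ}

theorem G2.of_list {U : Fin m → Fin n → ℂ} (hU : G2 U 1) :
    ∀ l : List ℤ, G2 (ev U l) (l1 l : ℝ)
  | [] => by simpa [l1] using (G2.zero : G2 (0 : Fin m → Fin n → ℂ) 0)
  | a :: l => by
      have h1 : G2 (((a : ℤ) : Fin m → Fin n → ℂ)) (a.natAbs : ℝ) := by
        have h := G2.const (m := m) (n := n) ((a : ℤ) : ℂ)
        have e : ‖((a : ℤ) : ℂ)‖ = (a.natAbs : ℝ) := by
          rw [Complex.norm_intCast, Nat.cast_natAbs, Int.cast_abs]
        rw [e] at h
        exact h.congr (by ext i j; simp)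
      have h2 := h1.add (hU.mul (G2.of_list hU l) zero_le_one)
      rw [one_mul] at h2
      simpa [l1] using h2

theorem G2.of_list2 {U W : Fin m → Fin n → ℂ} (hU : G2 U 1) (hW : G2 W 1) :
    ∀ l : List (List ℤ), G2 (ev2 W U l) (l12 l : ℝ)
  | [] => by simpa [l12] using (G2.zero : G2 (0 : Fin m → Fin n → ℂ) 0)
  | a :: l => by
      have h2 := (G2.of_list hU a).add (hW.mul (G2.of_list2 hU hW l) zero_le_one)
      rw [one_mul] at h2
      simpa [l12] using h2

end Pool.Agent.KR23
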