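import Pool.Agent.KR23.G2

/-! Rounding: kernels of factorisation norm at most one, composed with the arcsine, are bounded by
`π / 2 * beta`; and the general bound with Krivine's constant. -/

open scoped BigOperators
open MeasureTheory ProbabilityTheory

namespace Pool.Agent.KR23

open Pool.Agent.KG

variable {m n : ℕ}

/-- Grothendieck's identity used as a rounding bound: for unit vectors of a Euclidean space. -/
theorem round_unit {N : ℕ} (A : Matrix (Fin m) (Fin n) ℝ)
    (F : Fin m → EuclideanSpace ℝ (Fin N)) (G : Fin n → EuclideanSpace ℝ (Fin N))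
    (hF : ∀ i, ‖F i‖ = 1) (hG : ∀ j, ‖G j‖ = 1) :
    |∑ i, ∑ j, A i j * Real.arcsin (inner ℝ (F i) (G j))| ≤ Real.pi / 2 * beta A := by
  set γ := stdGaussian (EuclideanSpace ℝ (Fin N)) with hγ
  have hmeas : ∀ x : EuclideanSpace ℝ (Fin N),
      Measurable fun g : EuclideanSpace ℝ (Fin N) => Kriv.sgn (inner ℝ x g) := fun x =>
    Kriv.measurable_sgn.comp (by fun_prop)
  have hint : ∀ i j, Integrable (fun g => Kriv.sgn (inner ℝ (F i) g) * Kriv.sgn (inner ℝ (G j) g)) γ := by
    intro i j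
    refine Integrable.of_bound ((hmeas _).mul (hmeas _)).aestronglyMeasurable 1 ?_
    filter_upwards with g
    rw [norm_mul, Kriv.sgn_abs, Kriv.sgn_abs, mul_one]
  have hpi := Real.pi_pos
  have hval : ∀ i j, Real.arcsin (inner ℝ (F i) (G j)) = Real.pi / 2 *
      ∫ g, Kriv.sgn (inner ℝ (F i) g) * Kriv.sgn (inner ℝ (G j) g) ∂γ := by
    intro i j
    have h := Kriv.grothendieck_identity (F i) (G j) (hF i) (hG j)
    rw [hγ, h]
    field_simp
  have hsum : ∑ i, ∑ j, A i j * Real.arcsin (inner ℝ (F i) (G j)) = Real.pi / 2 *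
      ∫ g, ∑ i, ∑ j, A i j * Kriv.sgn (inner ℝ (F i) g) * Kriv.sgn (inner ℝ (G j) g) ∂γ := by
    rw [integral_finsetSum]
    · rw [Finset.mul_sum]
      refine Finset.sum_congr rfl fun i _ => ?_
      rw [integral_finsetSum]
      · rw [Finset.mul_sum]
        refine Finset.sum_congr rfl fun j _ => ?_
        rw [hval i j]
        simp_rw [mul_assoc (A i j)]
        rw [integral_const_mul]
        ring
      · intro j _
        simp_rw [mul_assoc (A i j)]
        exact (hint i j).const_mul _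
    · intro i _
      refine integrable_finsetSum _ fun j _ => ?_
      simp_rw [mul_assoc (A i j)]
      exact (hint i j).const_mul _
  have hmain : |∫ g, ∑ i, ∑ j, A i j * Kriv.sgn (inner ℝ (F i) g) * Kriv.sgn (inner ℝ (G j) g) ∂γ| ≤
      beta A := by
    rw [← Real.norm_eq_abs]
    refine (norm_integral_le_integral_norm _).trans ?_
    calc ∫ g, ‖∑ i, ∑ j, A i j * Kriv.sgn (inner ℝ (F i) g) * Kriv.sgn (inner ℝ (G j) g)‖ ∂γ
        ≤ ∫ _g, beta A ∂γ := by
          refine integral_mono_of_nonneg (Filter.Eventually.of_forall fun _ => norm_nonneg _)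
            (integrable_const _) (Filter.Eventually.of_forall fun g => ?_)
          exact Kriv.le_beta A (fun i => Kriv.sgn (inner ℝ (F i) g)) (fun j => Kriv.sgn (inner ℝ (G j) g))
            (fun i => (Kriv.sgn_abs _).le) (fun j => (Kriv.sgn_abs _).le)
      _ = beta A := by simp
  rw [hsum, abs_mul, abs_of_nonneg (by positivity)]
  exact mul_le_mul_of_nonneg_left hmain (by positivity)

/-- The rounding bound for a real kernel of factorisation norm at most one. -/
theorem round_G2 (A : Matrix (Fin m) (Fin n) ℝ) (g : Fin m → Fin n → ℝ)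
    (hg : G2 (fun i j => (g i j : ℂ)) 1) :
    |∑ i, ∑ j, A i j * Real.arcsin (g i j)| ≤ Real.pi / 2 * beta A := by
  obtain ⟨ι, _, F, G, hF, hG, hFG⟩ := hg.real
  let u' : Fin m → WithLp 2 (EuclideanSpace ℝ ι × EuclideanSpace ℝ (Fin 2)) :=
    fun i => WithLp.toLp 2 (F i, !₂[√(1 - ‖F i‖ ^ 2), 0])
  let v' : Fin n → WithLp 2 (EuclideanSpace ℝ ι × EuclideanSpace ℝ (Fin 2)) :=
    fun j => WithLp.toLp 2 (G j, !₂[0, √(1 - ‖G j‖ ^ 2)])
  have hin : ∀ i j, inner ℝ (u' i) (v' j) = g i j := by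
    intro i j
    have h := hFG i j
    rw [Complex.ofReal_re] at h
    rw [← h]
    simp [u', v', WithLp.prod_inner_apply, PiLp.inner_apply]
  have hu' : ∀ i, inner ℝ (u' i) (u' i) = (1 : ℝ) := by
    intro i
    have h1 : (0 : ℝ) ≤ 1 - ‖F i‖ ^ 2 := by linarith [hF i]
    rw [WithLp.prod_inner_apply, real_inner_self_eq_norm_sq, real_inner_self_eq_norm_sq]
    simp only [u']
    rw [EuclideanSpace.norm_sq_eq (!₂[√(1 - ‖F i‖ ^ 2), 0] : EuclideanSpace ℝ (Fin 2))]
    simp [Real.sq_sqrt h1]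
  have hv' : ∀ j, inner ℝ (v' j) (v' j) = (1 : ℝ) := by
    intro j
    have h1 : (0 : ℝ) ≤ 1 - ‖G j‖ ^ 2 := by linarith [hG j]
    rw [WithLp.prod_inner_apply, real_inner_self_eq_norm_sq, real_inner_self_eq_norm_sq]
    simp only [v']
    rw [EuclideanSpace.norm_sq_eq (!₂[0, √(1 - ‖G j‖ ^ 2)] : EuclideanSpace ℝ (Fin 2))]
    simp [Real.sq_sqrt h1]
  obtain ⟨N, w, hw⟩ := Kriv.exists_vectors (Matrix.gram ℝ (Sum.elim u' v'))
    (Matrix.posSemidef_gram ℝ (Sum.elim u' v'))
  have hnorm : ∀ s, inner ℝ (w s) (w s) = (1 : ℝ) → ‖w s‖ = 1 := by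
    intro s hs
    rw [real_inner_self_eq_norm_sq] at hs
    nlinarith [norm_nonneg (w s)]
  have h := round_unit A (fun i => w (.inl i)) (fun j => w (.inr j))
    (fun i => hnorm _ ((hw _ _).trans (hu' i))) (fun j => hnorm _ ((hw _ _).trans (hv' j)))
  have he : ∀ i j, inner ℝ (w (.inl i)) (w (.inr j)) = g i j := fun i j =>
    (hw _ _).trans (hin i j)
  simpa only [he] using h

/-- The bound of an arbitrary kernel through a valid Grothendieck constant. -/
theorem err_G2 {K : ℝ} (hK : IsGrothendieckBound K) (A : Matrix (Fin m) (Fin n) ℝ)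
    (g : Fin m → Fin n → ℂ) {d : ℝ} (hd : 0 ≤ d) (hg : G2 g d) :
    |∑ i, ∑ j, A i j * (g i j).re| ≤ K * d * beta A := by
  rcases hd.eq_or_lt with h0 | h0
  · subst h0
    have hz : ∀ i j, g i j = 0 := fun i j => norm_le_zero_iff.1 (hg.norm_le i j)
    simp [hz]
  · obtain ⟨ι, _, F, G, hF, hG, hFG⟩ := hg.real
    have hs : 0 < √d := Real.sqrt_pos.2 h0
    have hn : ∀ x : EuclideanSpace ℝ ι, ‖x‖ ^ 2 ≤ d → ‖(√d)⁻¹ • x‖ ≤ 1 := by
      intro x hx
      rw [norm_smul, norm_inv, Real.norm_eq_abs, abs_of_pos hs]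
      have h1 : ‖x‖ ≤ √d := Real.le_sqrt_of_sq_le hx
      calc (√d)⁻¹ * ‖x‖ ≤ (√d)⁻¹ * √d := by gcongr
        _ = 1 := inv_mul_cancel₀ hs.ne'
    have h := hK m n A (EuclideanSpace ℝ ι) (fun i => (√d)⁻¹ • F i) (fun j => (√d)⁻¹ • G j)
      (fun i => hn _ (hF i)) (fun j => hn _ (hG j))
    have he : ∀ i j, inner ℝ ((√d)⁻¹ • F i) ((√d)⁻¹ • G j) = d⁻¹ * (g i j).re := by
      intro i j
      rw [real_inner_smul_left, real_inner_smul_right, hFG, ← mul_assoc, ← mul_inv,
        Real.mul_self_sqrt hd]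
    have h2 : ∑ i, ∑ j, A i j * (g i j).re =
        d * ∑ i, ∑ j, A i j * inner ℝ ((√d)⁻¹ • F i) ((√d)⁻¹ • G j) := by
      rw [Finset.mul_sum]
      refine Finset.sum_congr rfl fun i _ => ?_
      rw [Finset.mul_sum]
      refine Finset.sum_congr rfl fun j _ => ?_
      rw [he]
      field_simp
    rw [h2, abs_mul, abs_of_pos h0]
    calc d * |∑ i, ∑ j, A i j * inner ℝ ((√d)⁻¹ • F i) ((√d)⁻¹ • G j)| ≤ d * (K * beta A) := by
          gcongr
      _ = K * d * beta A := by ring

/-- The partial sums of the sine series. -/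
noncomputable def sinT (N : ℕ) (x : ℝ) : ℝ :=
  ∑ k ∈ Finset.range N, (-1) ^ k * x ^ (2 * k + 1) / ((2 * k + 1).factorial : ℝ)

/-- If the kernel `Q` has factorisation norm at most one and the Taylor polynomial of degree nine of
`sin ∘ Q` has factorisation norm at most `1 - 3 / 10 ^ 8`, then `Q` itself is bounded by
`π / 2 * beta`. -/
theorem sin_round (A : Matrix (Fin m) (Fin n) ℝ) (Q : Fin m → Fin n → ℝ)
    (hQ : G2 (fun i j => (Q i j : ℂ)) 1)
    (hP : G2 (fun i j => (sinT 5 (Q i j) : ℂ)) (1 - 3 / 10 ^ 8)) :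
    |∑ i, ∑ j, A i j * Q i j| ≤ Real.pi / 2 * beta A := by
  have hfac : ∀ k : ℕ, 1 / ((2 * (k + 5) + 1).factorial : ℝ) ≤ 253 / 10 ^ 10 * (1 / 100) ^ k := by
    intro k
    induction k with
    | zero => norm_num [Nat.factorial]
    | succ k ih =>
      have e : (2 * (k + 1 + 5) + 1).factorial =
          (2 * (k + 5) + 3) * ((2 * (k + 5) + 2) * (2 * (k + 5) + 1).factorial) := by
        rw [show 2 * (k + 1 + 5) + 1 = (2 * (k + 5) + 1 + 1) + 1 by ring, Nat.factorial_succ,
          Nat.factorial_succ]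
      have hp : (0 : ℝ) < ((2 * (k + 5) + 1).factorial : ℝ) := by positivity
      rw [e]
      push_cast
      have h1 : (1 : ℝ) / ((2 * (k + 5) + 3) * ((2 * (k + 5) + 2) *
          ((2 * (k + 5) + 1).factorial : ℝ))) ≤
          1 / ((2 * (k + 5) + 1).factorial : ℝ) * (1 / 100) := by
        rw [div_mul_div_comm, one_mul]
        apply div_le_div_of_nonneg_left zero_le_one (by positivity)
        have h2 : (100 : ℝ) ≤ (2 * (k + 5) + 3) * (2 * (k + 5) + 2) := by
          have : (0 : ℝ) ≤ k := Nat.cast_nonneg k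
          nlinarith
        calc ((2 * (k + 5) + 1).factorial : ℝ) * 100
            ≤ ((2 * (k + 5) + 1).factorial : ℝ) * ((2 * (k + 5) + 3) * (2 * (k + 5) + 2)) := by
              gcongr
          _ = _ := by ring
      refine h1.trans ?_
      calc 1 / ((2 * (k + 5) + 1).factorial : ℝ) * (1 / 100)
          ≤ 253 / 10 ^ 10 * (1 / 100) ^ k * (1 / 100) := by gcongr
        _ = 253 / 10 ^ 10 * (1 / 100) ^ (k + 1) := by ring
  have hstep : ∀ k : ℕ, G2 (fun i j => (sinT (k + 5) (Q i j) : ℂ))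
      (1 - 3 / 10 ^ 8 + 253 / 10 ^ 10 * (100 / 99) * (1 - (1 / 100) ^ k)) := by
    intro k
    induction k with
    | zero =>
      refine hP.mono (le_of_eq ?_)
      norm_num
    | succ k ih =>
      have h1 := (hQ.pow zero_le_one (2 * (k + 5) + 1)).smul
        (((-1) ^ (k + 5) / ((2 * (k + 5) + 1).factorial : ℝ) : ℝ) : ℂ) (by positivity)
      have h2 := ih.add h1
      refine (h2.congr ?_).mono ?_
      · funext i j
        simp only [Pi.add_apply, Pi.pow_apply]
        have e : sinT (k + 1 + 5) (Q i j) = sinT (k + 5) (Q i j) +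
            (-1) ^ (k + 5) * Q i j ^ (2 * (k + 5) + 1) / ((2 * (k + 5) + 1).factorial : ℝ) := by
          rw [show k + 1 + 5 = (k + 5) + 1 by ring]
          unfold sinT
          rw [Finset.sum_range_succ]
        rw [e]
        push_cast
        ring
      · rw [one_pow, mul_one, Complex.norm_real, norm_div, norm_pow, norm_neg, norm_one, one_pow,
          Real.norm_eq_abs, abs_of_pos (by positivity : (0 : ℝ) < ((2 * (k + 5) + 1).factorial : ℝ))]
        have h3 := hfac k
        have e : (253 / 10 ^ 10 * (100 / 99) * (1 - (1 / 100) ^ (k + 1)) : ℝ) =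
            253 / 10 ^ 10 * (100 / 99) * (1 - (1 / 100) ^ k) + 253 / 10 ^ 10 * (1 / 100) ^ k := by
          rw [pow_succ]
          ring
        rw [e]
        linarith
  have hone : ∀ k : ℕ, G2 (fun i j => (sinT (k + 5) (Q i j) : ℂ)) 1 := by
    intro k
    refine (hstep k).mono ?_
    have h0 : (0 : ℝ) ≤ (1 / 100 : ℝ) ^ k := by positivity
    have h1 : (253 / 10 ^ 10 * (100 / 99) * (1 - (1 / 100) ^ k) : ℝ) ≤
        253 / 10 ^ 10 * (100 / 99) * 1 := by
      apply mul_le_mul_of_nonneg_left _ (by norm_num)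
      linarith
    have h2 : (253 / 10 ^ 10 * (100 / 99) * 1 : ℝ) ≤ 3 / 10 ^ 8 := by norm_num
    linarith
  have hbd : ∀ k : ℕ, |∑ i, ∑ j, A i j * Real.arcsin (sinT (k + 5) (Q i j))| ≤
      Real.pi / 2 * beta A := fun k => round_G2 A (fun i j => sinT (k + 5) (Q i j)) (hone k)
  have hlim1 : ∀ i j, Filter.Tendsto (fun k : ℕ => Real.arcsin (sinT (k + 5) (Q i j)))
      Filter.atTop (nhds (Q i j)) := by
    intro i j
    have h1 : Filter.Tendsto (fun N : ℕ => sinT N (Q i j)) Filter.atTop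
        (nhds (Real.sin (Q i j))) := by
      have := (Real.hasSum_sin (Q i j)).tendsto_sum_nat
      exact this
    have h2 := (h1.comp (Filter.tendsto_add_atTop_nat 5))
    have h3 := (Real.continuous_arcsin.tendsto _).comp h2
    have hq : |Q i j| ≤ 1 := by
      have := hQ.norm_le i j
      rwa [Complex.norm_real, Real.norm_eq_abs] at this
    have hq' := abs_le.1 hq
    have hpi := Real.pi_gt_three
    rw [Real.arcsin_sin (by linarith) (by linarith)] at h3
    exact h3
  have hlim : Filter.Tendsto (fun k : ℕ =>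
      |∑ i, ∑ j, A i j * Real.arcsin (sinT (k + 5) (Q i j))|) Filter.atTop
      (nhds |∑ i, ∑ j, A i j * Q i j|) := by
    refine Filter.Tendsto.abs ?_
    exact tendsto_finsetSum _ fun i _ => tendsto_finsetSum _ fun j _ =>
      (hlim1 i j).const_mul _
  exact le_of_tendsto hlim (Filter.Eventually.of_forall hbd)

end Pool.Agent.KR23
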